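import Mathlib

/-! Laurent differential polynomials and their derivations. -/

namespace H979Z.DL

open Finset

abbrev E : Type := ℕ →₀ ℤ

abbrev B : Type := AddMonoidAlgebra ℂ E

noncomputable def mono (m : E) : B := AddMonoidAlgebra.single m 1

noncomputable def e (i : ℕ) : E := Finsupp.single i 1

noncomputable def U (i : ℕ) : B := mono (e i)

noncomputable def V (i : ℕ) : B := mono (-e i)

lemma mono_add (m n : E) : mono (m + n) = mono m * mono n := by
  simp [mono, AddMonoidAlgebra.single_mul_single]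

lemma mono_zero : mono 0 = 1 := rfl

lemma U_mul_V (i : ℕ) : U i * V i = 1 := by
  rw [U, V, ← mono_add, add_neg_cancel, mono_zero]

lemma mono_nsmul (n : ℕ) (m : E) : mono (n • m) = mono m ^ n := by
  induction n with
  | zero => simp [mono_zero]
  | succ n ih => rw [succ_nsmul, mono_add, ih, pow_succ]

@[simp] lemma e_apply (i j : ℕ) : e i j = if i = j then 1 else 0 := by
  simp [e, Finsupp.single_apply]

lemma coeff_mono (m n : E) : (mono m).coeff n = if m = n then 1 else 0 := by
  classical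
  simp [mono, Finsupp.single_apply]

/-- span of the monomials with exponent in `S` -/
noncomputable def sp (S : Set E) : Submodule ℂ B := AddMonoidAlgebra.supported ℂ ℂ S

lemma mem_sp {S : Set E} {x : B} : x ∈ sp S ↔ ∀ m, x.coeff m ≠ 0 → m ∈ S := by
  rw [sp, AddMonoidAlgebra.mem_supported']
  exact ⟨fun h m hm => by by_contra hc; exact hm (h m hc), fun h m hm => by
    by_contra hc; exact hm (h m hc)⟩

lemma mono_mem {S : Set E} {m : E} (h : m ∈ S) : mono m ∈ sp S := by
  rw [mem_sp]; intro n hn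
  rw [coeff_mono] at hn
  split_ifs at hn with h1
  · exact h1 ▸ h
  · exact absurd rfl hn

lemma sp_le {S : Set E} {W : Submodule ℂ B} (h : ∀ m ∈ S, mono m ∈ W) : sp S ≤ W := by
  rw [sp, AddMonoidAlgebra.supported_eq_span_single, Submodule.span_le]
  rintro _ ⟨m, hm, rfl⟩
  exact h m hm

lemma sp_mono {S T : Set E} (h : S ⊆ T) : sp S ≤ sp T := sp_le fun _ hm => mono_mem (h hm)

lemma mem_sp_inter {S T : Set E} {x : B} (h1 : x ∈ sp S) (h2 : x ∈ sp T) : x ∈ sp (S ∩ T) := by
  rw [mem_sp] at *
  exact fun m hm => ⟨h1 m hm, h2 m hm⟩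

lemma mem_sp_univ (x : B) : x ∈ sp Set.univ := by
  rw [mem_sp]; intros; trivial

lemma lin_mem {M : Type} [AddCommGroup M] [Module ℂ M] (L : B →ₗ[ℂ] M) {S : Set E}
    {W : Submodule ℂ M} {x : B} (hx : x ∈ sp S) (h : ∀ m ∈ S, L (mono m) ∈ W) : L x ∈ W :=
  (sp_le (W := W.comap L) h) hx

lemma lin_ext {M : Type} [AddCommGroup M] [Module ℂ M] {L L' : B →ₗ[ℂ] M}
    (h : ∀ m, L (mono m) = L' (mono m)) : L = L' := by
  refine LinearMap.ext fun x => ?_
  have := lin_mem (L - L') (W := ⊥) (mem_sp_univ x) (fun m _ => by simp [h m])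
  simpa [sub_eq_zero] using this

lemma mul_mem' {S T : Set E} {W : Submodule ℂ B} {x y : B} (hx : x ∈ sp S) (hy : y ∈ sp T)
    (h : ∀ m ∈ S, ∀ n ∈ T, mono (m + n) ∈ W) : x * y ∈ W := by
  refine lin_mem (LinearMap.mulRight ℂ y) hx fun m hm => ?_
  refine lin_mem (LinearMap.mulLeft ℂ (mono m)) hy fun n hn => ?_
  simpa [← mono_add] using h m hm n hn

lemma mul_mem {S T R : Set E} {x y : B} (hx : x ∈ sp S) (hy : y ∈ sp T)
    (h : ∀ m ∈ S, ∀ n ∈ T, m + n ∈ R) : x * y ∈ sp R :=
  mul_mem' hx hy fun m hm n hn => mono_mem (h m hm n hn)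

noncomputable def lin (F : E → B) : B →ₗ[ℂ] B :=
  Finsupp.linearCombination ℂ F ∘ₗ (AddMonoidAlgebra.coeffLinearEquiv ℂ).toLinearMap

lemma lin_mono (F : E → B) (m : E) : lin F (mono m) = F m := by
  simp [lin, mono]

noncomputable def lg (a : ℕ → B) : E →+ B :=
  Finsupp.liftAddHom fun i => (zmultiplesHom B (V i * a i))

lemma lg_e (a : ℕ → B) (i : ℕ) : lg a (e i) = V i * a i := by
  simp [lg, e]

lemma lg_eq (a : ℕ → B) (m : E) (s : Finset ℕ) (hs : m.support ⊆ s) :
    lg a m = ∑ i ∈ s, (m i : ℂ) • (V i * a i) := by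
  rw [lg, Finsupp.liftAddHom_apply, Finsupp.sum_of_support_subset _ hs _ (by simp)]
  refine Finset.sum_congr rfl fun i _ => ?_
  simp [Int.cast_smul_eq_zsmul]

/-- the derivation sending `U i` to `a i` -/
noncomputable def der (a : ℕ → B) : Derivation ℂ B B where
  toLinearMap := lin fun m => mono m * lg a m
  map_one_eq_zero' := by
    rw [← mono_zero, lin_mono]; simp
  leibniz' := by
    intro x y
    have key : (LinearMap.mul ℂ B).compr₂ (lin fun m => mono m * lg a m) =
        (LinearMap.mul ℂ B).compl₂ (lin fun m => mono m * lg a m) +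
        ((LinearMap.mul ℂ B).compl₂ (lin fun m => mono m * lg a m)).flip := by
      refine lin_ext fun m => lin_ext fun n => ?_
      simp only [LinearMap.compr₂_apply, LinearMap.mul_apply', ← mono_add, lin_mono,
        LinearMap.add_apply, LinearMap.compl₂_apply, LinearMap.flip_apply, map_add]
      simp only [mono_add]; ring
    have := congrArg (fun L => L x y) key
    simpa using this

lemma der_mono (a : ℕ → B) (m : E) : der a (mono m) = mono m * lg a m := lin_mono _ m

lemma der_U (a : ℕ → B) (i : ℕ) : der a (U i) = a i := by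
  rw [U, der_mono, lg_e, ← mul_assoc, ← U, U_mul_V, one_mul]

lemma der_mono_eq (a : ℕ → B) (m : E) (s : Finset ℕ) (hs : m.support ⊆ s) :
    der a (mono m) = ∑ i ∈ s, (m i : ℂ) • (mono (m - e i) * a i) := by
  rw [der_mono, lg_eq a m s hs, Finset.mul_sum]
  refine Finset.sum_congr rfl fun i _ => ?_
  rw [mul_smul_comm, ← mul_assoc, V, ← mono_add, sub_eq_add_neg]

lemma D_mul (D : Derivation ℂ B B) (x y : B) : D (x * y) = D x * y + x * D y := by
  rw [Derivation.leibniz, smul_eq_mul, smul_eq_mul]; ring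

lemma D_V (D : Derivation ℂ B B) (i : ℕ) : D (V i) = -(V i * V i * D (U i)) := by
  have h := congrArg D (U_mul_V i)
  rw [D_mul, Derivation.map_one_eq_zero] at h
  have h2 := U_mul_V i
  linear_combination V i * h - D (V i) * h2

lemma der_ext {D D' : Derivation ℂ B B} (h : ∀ i, D (U i) = D' (U i)) : D = D' := by
  have key : ∀ m, D (mono m) = D' (mono m) := by
    intro m
    induction m using Finsupp.induction_linear with
    | zero => rw [mono_zero]; simp
    | add f g hf hg => rw [mono_add, D_mul, D_mul, hf, hg]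
    | single i z =>
      have hV : D (V i) = D' (V i) := by rw [D_V, D_V, h]
      induction z using Int.induction_on with
      | zero => rw [Finsupp.single_zero, mono_zero]; simp
      | succ n ih =>
        rw [Finsupp.single_add, mono_add, D_mul, D_mul, ih]
        exact congrArg _ (congrArg _ (h i))
      | pred n ih =>
        have h1 : mono (Finsupp.single i (-1)) = V i := by rw [Finsupp.single_neg]; rfl
        rw [sub_eq_add_neg, Finsupp.single_add, mono_add, D_mul, D_mul, ih, h1, hV]
  have := lin_ext (L := D.toLinearMap) (L' := D'.toLinearMap) key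
  exact Derivation.ext fun x => congrArg (fun L => L x) this

lemma der_mem (a : ℕ → B) {S : Set E} {W : Submodule ℂ B} {x : B} (hx : x ∈ sp S)
    (h : ∀ m ∈ S, ∀ i, m i ≠ 0 → mono (m - e i) * a i ∈ W) : der a x ∈ W := by
  refine lin_mem (der a).toLinearMap hx fun m hm => ?_
  change der a (mono m) ∈ W
  rw [der_mono_eq a m _ subset_rfl]
  exact W.sum_mem fun i hi => W.smul_mem _ (h m hm i (Finsupp.mem_support_iff.mp hi))

noncomputable def pd (i : ℕ) : Derivation ℂ B B := der fun j => if j = i then 1 else 0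

noncomputable def dx : Derivation ℂ B B := der fun j => U (j + 1)

noncomputable def ev (P : B) : Derivation ℂ B B := der fun j => dx^[j] P

lemma pd_U (i j : ℕ) : pd i (U j) = if j = i then 1 else 0 := der_U _ _

lemma dx_U (j : ℕ) : dx (U j) = U (j + 1) := der_U _ _

lemma ev_U (P : B) (j : ℕ) : ev P (U j) = dx^[j] P := der_U _ _

lemma pd_mono (i : ℕ) (m : E) : pd i (mono m) = (m i : ℂ) • mono (m - e i) := by
  classical
  rw [pd, der_mono_eq _ m (insert i m.support) (Finset.subset_insert _ _),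
    Finset.sum_eq_single i]
  · simp
  · intro j _ hj; simp [hj]
  · simp

lemma coeff_pd (i : ℕ) (x : B) (m : E) : (pd i x).coeff (m - e i) = m i * x.coeff m := by
  let c : E → B →ₗ[ℂ] ℂ := fun n =>
    Finsupp.lapply n ∘ₗ (AddMonoidAlgebra.coeffLinearEquiv ℂ).toLinearMap
  have hc : ∀ n y, c n y = y.coeff n := fun n y => rfl
  have key : c (m - e i) ∘ₗ (pd i).toLinearMap = (m i : ℂ) • c m := by
    refine lin_ext fun n => ?_
    change c (m - e i) (pd i (mono n)) = (m i : ℂ) • c m (mono n)
    rw [pd_mono, map_smul, hc, hc, coeff_mono, coeff_mono]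
    by_cases h : n = m
    · simp [h]
    · simp [h]
  exact congrArg (fun L => L x) key

lemma comm_of (D D' D'' : Derivation ℂ B B) (h : ∀ i, D (D' (U i)) = D' (D (U i)) + D'' (U i))
    (x : B) : D (D' x) = D' (D x) + D'' x := by
  have : ⁅D, D'⁆ = D'' := der_ext fun i => by
    rw [Derivation.commutator_apply, h]; ring
  have h2 := congrArg (fun L : Derivation ℂ B B => L x) this
  simp only [Derivation.commutator_apply] at h2
  linear_combination h2

lemma comm_of' (D D' : Derivation ℂ B B) (h : ∀ i, D (D' (U i)) = D' (D (U i)))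
    (x : B) : D (D' x) = D' (D x) := by
  simpa using comm_of D D' 0 (by simpa using h) x

lemma pd_pd (i j : ℕ) (x : B) : pd i (pd j x) = pd j (pd i x) :=
  comm_of' _ _ (fun k => by rw [pd_U, pd_U]; split_ifs <;> simp) x

lemma pd_succ_dx (i : ℕ) (x : B) : pd (i + 1) (dx x) = dx (pd (i + 1) x) + pd i x :=
  comm_of _ _ _ (fun k => by
    rw [dx_U, pd_U, pd_U, pd_U]
    by_cases h : k = i <;> by_cases h' : k = i + 1 <;> simp [h, h']) x

lemma pd_zero_dx (x : B) : pd 0 (dx x) = dx (pd 0 x) :=
  comm_of' _ _ (fun k => by rw [dx_U, pd_U, pd_U]; split_ifs <;> simp_all) x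

lemma dx_ev (P x : B) : dx (ev P x) = ev P (dx x) :=
  comm_of' _ _ (fun k => by rw [ev_U, dx_U, ev_U, Function.iterate_succ_apply']) x

lemma iter_comm (D : Derivation ℂ B B) (h : ∀ x, D (dx x) = dx (D x)) (j : ℕ) (x : B) :
    D (dx^[j] x) = dx^[j] (D x) := by
  induction j with
  | zero => rfl
  | succ j ih => rw [Function.iterate_succ_apply', Function.iterate_succ_apply', h, ih]

noncomputable def dxi (j : ℕ) : B →ₗ[ℂ] B := (dx.toLinearMap) ^ j

lemma dxi_eq (j : ℕ) (x : B) : dx^[j] x = dxi j x := by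
  rw [dxi, Module.End.pow_apply]; rfl

lemma ev_add (P Q : B) : ev (P + Q) = ev P + ev Q :=
  der_ext fun i => by simp [ev_U, dxi_eq]

lemma ev_smul (c : ℂ) (P : B) : ev (c • P) = c • ev P :=
  der_ext fun i => by simp [ev_U, dxi_eq]

lemma ev_zero : ev 0 = 0 := der_ext fun i => by simp [ev_U]

lemma ev_sub (P Q : B) : ev (P - Q) = ev P - ev Q :=
  der_ext fun i => by simp [ev_U, dxi_eq]

lemma ev_ev (P Q x : B) : ev P (ev Q x) = ev Q (ev P x) + ev (ev P Q - ev Q P) x :=
  comm_of _ _ _ (fun k => by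
    rw [ev_U, ev_U, ev_U, iter_comm _ (fun y => (dx_ev P y).symm),
      iter_comm _ (fun y => (dx_ev Q y).symm)]
    simp [dxi_eq]) x

lemma pd_zero_ev (P x : B) : pd 0 (ev P x) = ev P (pd 0 x) + ev (pd 0 P) x :=
  comm_of _ _ _ (fun k => by
    rw [ev_U, ev_U, iter_comm _ pd_zero_dx, pd_U]
    split_ifs <;> simp) x

lemma dxi_U (j i : ℕ) : dx^[j] (U i) = U (i + j) := by
  induction j with
  | zero => rfl
  | succ j ih => rw [Function.iterate_succ_apply', ih, dx_U]; rfl

lemma ev_U1 : ev (U 1) = dx := der_ext fun i => by rw [ev_U, dxi_U, dx_U, add_comm]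

lemma ev_one : ev 1 = pd 0 := der_ext fun i => by
  rw [ev_U, pd_U]
  cases i with
  | zero => simp
  | succ i =>
    rw [Function.iterate_succ_apply, Derivation.map_one_eq_zero, dxi_eq, map_zero]; simp

end H979Z.DL
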