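import Pool.Agent.H930Z.Riem.Defs

/-! Tau-symmetric deformations of the Riemann hierarchy with `K = ∂_x`, and the standard form. -/

namespace H979Z.Tau

open Finset H930Z.Riem

/-- The variational derivative `δ/δu = ∑_{n ≥ 0} (-∂_x)^n ∂/∂u_n` of a density. -/
noncomputable def vr (g : A) : A :=
  dU g + ∑ i ∈ g.vars, (-1) ^ (i + 1) * dX^[i + 1] (MvPolynomial.pderiv i g)

/-- `δ/δu` on `𝒜_u[[ε]]`, coefficient by coefficient. -/
noncomputable def vrH (g : Ahat) : Ahat := PowerSeries.mk fun n => vr (PowerSeries.coeff n g)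

/-- `{f, ∫ h dx}_K = ∑_n (∂f/∂u_n) ∂_x^n (K δh/δu)` for `K = ∂_x`. -/
noncomputable def brH (f h : Ahat) : Ahat := evH (dXH (vrH h)) f

/-- `hm h p = h_{p-1}`, with `h_{-1} = u`. -/
noncomputable def hm (h : ℕ → Ahat) : ℕ → Ahat
  | 0 => PowerSeries.C u
  | p + 1 => h p

/-- `Q` is a tau-symmetric deformation of the Riemann hierarchy with Poisson operator `K = ∂_x`
and Hamiltonian densities `h d`. -/
structure IsTauSym (Q h : ℕ → Ahat) : Prop where
  defo : IsDeformation Q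
  deg : ∀ d, Deg 0 (h d)
  lead : ∀ d, PowerSeries.coeff 0 (h d) =
    MvPolynomial.C ((((d + 2).factorial : ℂ)⁻¹) • (PowerSeries.X : R) ^ (d + 2))
  ham : ∀ d, Q d = dXH (vrH (h d))
  tau : ∀ p q, brH (hm h p) (h q) = brH (hm h q) (h p)
  space : brH (PowerSeries.C u) (h 0) = PowerSeries.C (MvPolynomial.X 0)
  casimir : brH (PowerSeries.C u) (PowerSeries.C u) = 0

/-- `∫ f dx = ∫ g dx`: the densities differ by a total derivative and a constant. -/
def SameInt (f g : Ahat) : Prop :=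
  ∃ (w : Ahat) (c : ℂ), f - g = dXH w + PowerSeries.C (MvPolynomial.C (PowerSeries.C c))

/-- `l ∈ 𝒫'_k`: at least two parts, all parts `≥ 2`, and the largest part occurs at least twice. -/
def IsP {k : ℕ} (l : Nat.Partition k) : Prop :=
  2 ≤ l.parts.card ∧ (∀ i ∈ l.parts, 2 ≤ i) ∧ ∃ t, (∀ i ∈ l.parts, i ≤ t) ∧ 2 ≤ l.parts.count t

/-- `u_l = ∏ u_{l_i}`. -/
noncomputable def uP {k : ℕ} (l : Nat.Partition k) : A :=
  (l.parts.map fun i => (MvPolynomial.X (i - 1) : A)).prod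

open Classical in
/-- `u^3/6 + a ε^2 u_1^2 + ∑_{k ≥ 4} ∑_{l ∈ 𝒫'_k} c_l ε^k u_l`. -/
noncomputable def stdDensity (a : ℂ) (c : (k : ℕ) → Nat.Partition k → ℂ) : Ahat :=
  PowerSeries.C ((6 : ℂ)⁻¹ • u ^ 3) +
    PowerSeries.X ^ 2 * PowerSeries.C (a • (MvPolynomial.X 0 : A) ^ 2) +
    PowerSeries.mk fun k =>
      if 4 ≤ k then ∑ l ∈ univ.filter (fun l : Nat.Partition k => IsP l), c k l • uP l else 0

/-- The Hamiltonian `∫ h_1 dx` is in standard form with coefficients `a` and `c`. -/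
def IsStandard (h : ℕ → Ahat) (a : ℂ) (c : (k : ℕ) → Nat.Partition k → ℂ) : Prop :=
  SameInt (h 1) (stdDensity a c) ∧ ∀ (k : ℕ) (l : Nat.Partition k), Odd k → c k l = 0

end H979Z.Tau
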