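import Pool.Agent.H979Z.DL.Std

/-! Transfer to `ℂ[[u]][u_1, u_2, …][[ε]]`. -/

namespace H979Z.DL

open Finset H930Z.Riem H979Z.Tau

abbrev AA : Type := H930Z.Riem.A

noncomputable def UA : ℕ → AA
  | 0 => u
  | i + 1 => MvPolynomial.X i

noncomputable def φ : MvPolynomial ℕ ℂ →ₐ[ℂ] B := MvPolynomial.aeval U

noncomputable def ψ : MvPolynomial ℕ ℂ →ₐ[ℂ] AA := MvPolynomial.aeval UA

noncomputable def ι (s : ℕ →₀ ℕ) : E := s.mapRange Nat.cast rfl

lemma nat_ι (s : ℕ →₀ ℕ) : nat (ι s) = s := by ext i; simp [nat, ι]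

lemma φ_monomial (s : ℕ →₀ ℕ) (c : ℂ) : φ (MvPolynomial.monomial s c) = c • mono (ι s) := by
  rw [φ, MvPolynomial.aeval_monomial, ← prod_nat (m := ι s) (fun i => by simp [ι]), nat_ι,
    Algebra.smul_def]
  rfl

lemma φ_coeff (p : MvPolynomial ℕ ℂ) (s : ℕ →₀ ℕ) : (φ p).coeff (ι s) = p.coeff s := by
  classical
  induction p using MvPolynomial.induction_on' with
  | monomial t c =>
    rw [φ_monomial, AddMonoidAlgebra.coeff_smul, Finsupp.smul_apply, coeff_mono,
      MvPolynomial.coeff_monomial]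
    by_cases h : t = s
    · simp [h]
    · have : ι t ≠ ι s := fun h' => h (by rw [← nat_ι t, h', nat_ι])
      simp [h, this]
  | add p q hp hq => simp [hp, hq]

lemma φ_inj {p q : MvPolynomial ℕ ℂ} (h : φ p = φ q) : p = q := by
  ext s; rw [← φ_coeff, h, φ_coeff]

def Rel (x : B) (y : AA) : Prop := ∃ p, φ p = x ∧ ψ p = y

lemma Rel.uniq {x : B} {y y' : AA} (h : Rel x y) (h' : Rel x y') : y = y' := by
  obtain ⟨p, rfl, rfl⟩ := h
  obtain ⟨q, h1, rfl⟩ := h'
  rw [φ_inj h1]

lemma Rel.add {x x' : B} {y y' : AA} (h : Rel x y) (h' : Rel x' y') : Rel (x + x') (y + y') := by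
  obtain ⟨p, rfl, rfl⟩ := h
  obtain ⟨q, rfl, rfl⟩ := h'
  exact ⟨p + q, map_add _ _ _, map_add _ _ _⟩

lemma Rel.sub {x x' : B} {y y' : AA} (h : Rel x y) (h' : Rel x' y') : Rel (x - x') (y - y') := by
  obtain ⟨p, rfl, rfl⟩ := h
  obtain ⟨q, rfl, rfl⟩ := h'
  exact ⟨p - q, map_sub _ _ _, map_sub _ _ _⟩

lemma Rel.mul {x x' : B} {y y' : AA} (h : Rel x y) (h' : Rel x' y') : Rel (x * x') (y * y') := by
  obtain ⟨p, rfl, rfl⟩ := h
  obtain ⟨q, rfl, rfl⟩ := h'
  exact ⟨p * q, map_mul _ _ _, map_mul _ _ _⟩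

lemma Rel.smul (c : ℂ) {x : B} {y : AA} (h : Rel x y) : Rel (c • x) (c • y) := by
  obtain ⟨p, rfl, rfl⟩ := h
  exact ⟨c • p, map_smul _ _ _, map_smul _ _ _⟩

lemma Rel.zero : Rel 0 0 := ⟨0, map_zero _, map_zero _⟩

lemma Rel.one : Rel 1 1 := ⟨1, map_one _, map_one _⟩

lemma Rel.pow {x : B} {y : AA} (h : Rel x y) (n : ℕ) : Rel (x ^ n) (y ^ n) := by
  obtain ⟨p, rfl, rfl⟩ := h
  exact ⟨p ^ n, map_pow _ _ _, map_pow _ _ _⟩

lemma Rel.sum {κ : Type} (s : Finset κ) {x : κ → B} {y : κ → AA} (h : ∀ i ∈ s, Rel (x i) (y i)) :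
    Rel (∑ i ∈ s, x i) (∑ i ∈ s, y i) := by
  classical
  induction s using Finset.induction_on with
  | empty => simpa using Rel.zero
  | insert i s hi ih =>
    rw [Finset.sum_insert hi, Finset.sum_insert hi]
    exact (h i (by simp)).add (ih fun j hj => h j (by simp [hj]))

lemma Rel.U (i : ℕ) : Rel (U i) (UA i) :=
  ⟨MvPolynomial.X i, MvPolynomial.aeval_X _ _, MvPolynomial.aeval_X _ _⟩

lemma Rel.op {b : ℕ → B} {a : AA} {c : ℕ → AA} (h0 : Rel (b 0) a) (h1 : ∀ i, Rel (b (i + 1)) (c i))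
    {x : B} {y : AA} (h : Rel x y) : Rel (der b x) (op a c y) := by
  obtain ⟨p, rfl, rfl⟩ := h
  induction p using MvPolynomial.induction_on with
  | C r =>
    have e1 : φ (MvPolynomial.C r) = algebraMap ℂ B r := φ.commutes r
    have e2 : ψ (MvPolynomial.C r) = MvPolynomial.C (PowerSeries.C r) := ψ.commutes r
    rw [e1, e2, Derivation.map_algebraMap, op_C]
    simpa using Rel.zero
  | add p q hp hq => rw [map_add, map_add, map_add, op_add]; exact hp.add hq
  | mul_X p i hp =>
    have e1 : φ (MvPolynomial.X i) = H979Z.DL.U i := MvPolynomial.aeval_X _ _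
    have e2 : ψ (MvPolynomial.X i) = UA i := MvPolynomial.aeval_X _ _
    rw [map_mul φ, map_mul ψ, D_mul, op_mul, e1, e2, der_U]
    refine (hp.mul (Rel.U i)).add (Rel.mul ⟨p, rfl, rfl⟩ ?_)
    cases i with
    | zero => rw [UA, u, op_C]; simpa using h0
    | succ i => rw [UA, op_X]; exact h1 i

lemma Rel.dx {x : B} {y : AA} (h : Rel x y) : Rel (dx x) (dX y) :=
  Rel.op (b := fun j => H979Z.DL.U (j + 1)) (Rel.U 1) (fun i => Rel.U (i + 2)) h

lemma Rel.dxi (j : ℕ) {x : B} {y : AA} (h : Rel x y) : Rel (dxi j x) (dX^[j] y) := by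
  induction j with
  | zero => exact h
  | succ j ih => rw [dxi_succ, Function.iterate_succ_apply']; exact ih.dx

lemma Rel.ev {P x : B} {Q y : AA} (hP : Rel P Q) (h : Rel x y) :
    Rel (ev P x) (H930Z.Riem.ev Q y) :=
  Rel.op (b := fun j => H979Z.DL.dx^[j] P) hP (fun i => by rw [dxi_eq]; exact hP.dxi (i + 1)) h

lemma Rel.pd0 {x : B} {y : AA} (h : Rel x y) : Rel (pd 0 x) (dU y) := by
  have := Rel.op (b := fun j => if j = 0 then 1 else 0) (a := 1) (c := fun _ => 0)
    (by simpa using Rel.one) (fun i => by simpa using Rel.zero) h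
  simpa [H930Z.Riem.op, pd] using this

lemma Rel.pd (i : ℕ) {x : B} {y : AA} (h : Rel x y) :
    Rel (pd (i + 1) x) (MvPolynomial.pderiv i y) := by
  classical
  have := Rel.op (b := fun j => if j = i + 1 then 1 else 0) (a := 0)
    (c := fun j => if j = i then 1 else 0)
    (by simpa using Rel.zero) (fun j => by
      by_cases hj : j = i
      · simpa [hj] using Rel.one
      · simpa [hj] using Rel.zero) h
  rw [op_eq _ _ _ (insert i y.vars) (Finset.subset_insert _ _)] at this
  simpa [H979Z.DL.pd] using this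

lemma Rel.var {x : B} {y : AA} (h : Rel x y) : Rel (var x) (vr y) := by
  obtain ⟨M, hM⟩ := exists_Bd x
  have h1 : y.vars ⊆ range (M + (y.vars.sup id + 1)) := fun i hi => by
    have : i ≤ y.vars.sup id := Finset.le_sup (f := id) hi
    rw [Finset.mem_range]; omega
  rw [var_eq_sum (Bd_mono (M := M + (y.vars.sup id + 1) + 1) (by omega) hM),
    Finset.sum_range_succ', vr, Finset.sum_subset h1 fun i _ hi => by
      rw [MvPolynomial.pderiv_eq_zero_of_notMem_vars hi, dX_iter_zero, mul_zero], add_comm (dU y)]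
  refine Rel.add (Rel.sum _ fun i _ => ?_) (by simpa using h.pd0)
  have := ((h.pd i).dxi (i + 1)).smul ((-1 : ℂ) ^ (i + 1))
  convert this using 1
  rw [Algebra.smul_def]; simp

lemma UA_hom (i : ℕ) : (UA i).IsWeightedHomogeneous (fun i : ℕ => i + 1) i := by
  cases i with
  | zero => exact MvPolynomial.isWeightedHomogeneous_C _ _
  | succ i => exact MvPolynomial.isWeightedHomogeneous_X _ _ _

lemma rel_of_PL {k : ℕ} {n : ℤ} {x : B} (hP : x ∈ sp PL) (hH : x ∈ H k n) :
    ∃ y, Rel x y ∧ y.IsWeightedHomogeneous (fun i : ℕ => i + 1) k := by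
  have : sp (PL ∩ HS k n) ≤ Submodule.map φ.toLinearMap (Submodule.comap ψ.toLinearMap
      ((MvPolynomial.weightedHomogeneousSubmodule H930Z.Riem.R (fun i : ℕ => i + 1)
        k).restrictScalars ℂ)) := by
    refine sp_le fun m hm => ⟨∏ i ∈ (nat m).support, MvPolynomial.X i ^ nat m i, ?_, ?_⟩
    · change MvPolynomial.IsWeightedHomogeneous _ (ψ _) _
      have h1 : ∑ i ∈ (nat m).support, nat m i * i = k := by
        have := sum_nat hm.1
        rw [hm.2.2.1] at this
        exact_mod_cast this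
      rw [map_prod, ← h1]
      refine MvPolynomial.IsWeightedHomogeneous.prod _ _ _ fun i _ => ?_
      rw [map_pow, ψ, MvPolynomial.aeval_X]
      simpa using (UA_hom i).pow (nat m i)
    · change φ _ = _
      rw [map_prod, ← prod_nat hm.1]
      simp [φ]
  obtain ⟨p, h1, h2⟩ := this (mem_sp_inter hP hH)
  exact ⟨ψ p, ⟨p, h2, rfl⟩, h1⟩

lemma rel_of_PL' {x : B} (hP : x ∈ sp PL) : ∃ y, Rel x y := by
  have : sp PL ≤ Submodule.map φ.toLinearMap ⊤ := by
    refine sp_le fun m hm => ⟨∏ i ∈ (nat m).support, MvPolynomial.X i ^ nat m i, trivial, ?_⟩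
    change φ _ = _
    rw [map_prod, ← prod_nat hm]
    simp [φ]
  obtain ⟨p, _, h2⟩ := this hP
  exact ⟨ψ p, p, h2, rfl⟩

lemma Rel.exact {x : B} {y : AA} (h : Rel x y) (hx : x ∈ ImP) : ∃ w, y = dX w := by
  obtain ⟨z, hz, rfl⟩ := hx
  obtain ⟨w, hw⟩ := rel_of_PL' hz
  exact ⟨w, h.uniq hw.dx⟩

lemma Rel.f (n : ℕ) :
    Rel (f n) (MvPolynomial.C (((n.factorial : ℂ)⁻¹) • (PowerSeries.X : H930Z.Riem.R) ^ n)) := by
  have := ((Rel.U 0).pow n).smul ((n.factorial : ℂ)⁻¹)
  have e1 : (MvPolynomial.C (((n.factorial : ℂ)⁻¹) • (PowerSeries.X : H930Z.Riem.R) ^ n) : AA) =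
      ((n.factorial : ℂ)⁻¹) • u ^ n := by
    rw [u, ← map_pow, MvPolynomial.C_apply, MvPolynomial.C_apply, MvPolynomial.smul_monomial]
  rw [e1]
  exact this

lemma Rel.UP {k : ℕ} (l : Nat.Partition k) : Rel (UP l) (uP l) := by
  have : ∀ s : Multiset ℕ, (∀ i ∈ s, 0 < i) →
      Rel (s.map H979Z.DL.U).prod (s.map fun i => (MvPolynomial.X (i - 1) : AA)).prod := by
    intro s
    induction s using Multiset.induction_on with
    | empty => intro _; simpa using Rel.one
    | cons a s ih =>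
      intro h
      rw [Multiset.map_cons, Multiset.map_cons, Multiset.prod_cons, Multiset.prod_cons]
      refine Rel.mul ?_ (ih fun i hi => h i (Multiset.mem_cons_of_mem hi))
      obtain ⟨a, rfl⟩ : ∃ b, a = b + 1 := ⟨a - 1, by have := h a (by simp); omega⟩
      exact Rel.U (a + 1)
  exact this _ fun i hi => l.parts_pos hi

/-! ### series in `ε ^ 18` -/

noncomputable def ser (a : ℕ → AA) : Ahat :=
  PowerSeries.mk fun k => if 18 ∣ k then a (k / 18) else 0

lemma coeff_ser (a : ℕ → AA) (k : ℕ) :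
    PowerSeries.coeff k (ser a) = if 18 ∣ k then a (k / 18) else 0 := by simp [ser]

lemma coeff_ser' (a : ℕ → AA) (m : ℕ) : PowerSeries.coeff (18 * m) (ser a) = a m := by
  simp [coeff_ser]

lemma vr_zero : vr 0 = 0 := by simp [vr, dU_zero]

lemma dXH_ser (a : ℕ → AA) : dXH (ser a) = ser fun m => dX (a m) := by
  ext1 k
  rw [coeff_dXH, coeff_ser, coeff_ser]
  split_ifs <;> simp [dX_zero]

lemma vrH_ser (a : ℕ → AA) : vrH (ser a) = ser fun m => vr (a m) := by
  ext1 k
  rw [vrH, PowerSeries.coeff_mk, coeff_ser, coeff_ser]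
  split_ifs <;> simp [vr_zero]

lemma evH_ser (a b : ℕ → AA) :
    evH (ser a) (ser b) = ser fun m => ∑ p ∈ antidiagonal m, H930Z.Riem.ev (a p.1) (b p.2) := by
  ext1 k
  rw [coeff_evH, coeff_ser]
  split_ifs with h
  · obtain ⟨m, rfl⟩ := h
    rw [Nat.mul_div_cancel_left _ (by norm_num)]
    symm
    refine Finset.sum_of_injOn (fun p : ℕ × ℕ => (18 * p.1, 18 * p.2)) ?_ ?_ ?_ ?_
    · rintro ⟨a, b⟩ _ ⟨c, d⟩ _ h
      simp only [Prod.mk.injEq] at h ⊢
      omega
    · rintro ⟨a, b⟩ h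
      simp at h ⊢; omega
    · rintro ⟨i, j⟩ h1 h2
      replace h1 := mem_ad h1
      have : ¬ 18 ∣ i := by
        rintro ⟨i, rfl⟩
        refine h2 ⟨(i, m - i), ?_, ?_⟩
        · simp at h1 ⊢; omega
        · simp at h1 ⊢; omega
      rw [coeff_ser, if_neg this, ev_zero_left]
    · intro p _
      rw [coeff_ser', coeff_ser']
  · refine Finset.sum_eq_zero fun p hp => ?_
    replace hp := mem_ad hp
    rw [coeff_ser, coeff_ser]
    split_ifs with h1 h2
    · exact absurd (hp ▸ dvd_add h1 h2) h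
    · exact H930Z.Riem.ev_zero _
    · exact ev_zero_left _
    · exact ev_zero_left _

lemma ser_hom {a : ℕ → AA} {d : ℕ}
    (h : ∀ m, (a m).IsWeightedHomogeneous (fun i : ℕ => i + 1) (18 * m + d)) : Deg d (ser a) := by
  intro k
  rw [coeff_ser]
  split_ifs with hk
  · obtain ⟨m, rfl⟩ := hk
    rw [Nat.mul_div_cancel_left _ (by norm_num)]
    exact h m
  · exact MvPolynomial.isWeightedHomogeneous_zero _ _ _

def l9 : Nat.Partition 18 where
  parts := Multiset.replicate 9 2
  parts_pos := fun {i} hi => by rw [Multiset.eq_of_mem_replicate hi]; norm_num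
  parts_sum := by simp

lemma l9_IsP : IsP l9 :=
  ⟨by simp [l9], fun i hi => by rw [Multiset.eq_of_mem_replicate hi], 2,
    fun i hi => by rw [Multiset.eq_of_mem_replicate hi], by simp [l9]⟩

theorem main : ∃ (Q h : ℕ → Ahat) (c : (k : ℕ) → Nat.Partition k → ℂ),
    IsTauSym Q h ∧ IsStandard h 0 c ∧
      ∃ l : Nat.Partition 18, l.parts = Multiset.replicate 9 2 ∧ IsP l ∧ c 18 l = 1 := by
  classical
  obtain ⟨g, c, h1, h2, h3, h4, h5, h6, h7⟩ := exists_g
  choose y hy hh using fun d m => rel_of_PL (k := 18 * m) (h1 d m).1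
    (H_cast (h1 d m).2 (by push_cast; ring) rfl)
  have hvr : ∀ d m, vr (y (d + 1) m) = y d m := fun d m =>
    (hy (d + 1) m).var.uniq (by rw [h4]; exact hy d m)
  have hy0 : ∀ d, y d 0 = MvPolynomial.C ((((d + 1).factorial : ℂ)⁻¹) •
      (PowerSeries.X : H930Z.Riem.R) ^ (d + 1)) := fun d =>
    (hy d 0).uniq (by rw [h2]; exact Rel.f _)
  have hu : ser (y 0) = PowerSeries.C u := by
    ext1 k
    rw [coeff_ser, PowerSeries.coeff_C]
    by_cases hk : k = 0
    · subst hk; simp [hy0, u]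
    · rw [if_neg hk]
      split_ifs with h
      · obtain ⟨m, rfl⟩ := h
        rw [Nat.mul_div_cancel_left _ (by norm_num)]
        obtain ⟨m, rfl⟩ : ∃ m', m = m' + 1 := ⟨m - 1, by omega⟩
        exact (hy 0 (m + 1)).uniq (by rw [h3]; exact Rel.zero)
      · rfl
  have hhm : ∀ p, hm (fun d => ser (y (d + 1))) p = ser (y p) := fun p => by
    cases p with
    | zero => exact hu.symm
    | succ p => rfl
  have hQ : ∀ d, dXH (vrH (ser (y (d + 1)))) = ser fun m => dX (y d m) := fun d => by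
    simp only [vrH_ser, hvr, dXH_ser]
  refine ⟨fun d => ser fun m => dX (y d m), fun d => ser (y (d + 1)), fun k l =>
    if k = 18 then (if l.parts = Multiset.replicate 9 2 then 1 else 0)
    else if 18 ∣ k then c k l else 0, ⟨⟨fun d => ser_hom fun m => ?_, fun d => ?_, fun a b => ?_⟩,
      fun d => ser_hom fun m => hh _ _, fun d => ?_, fun d => (hQ d).symm, fun p q => ?_, ?_, ?_⟩,
    ⟨?_, fun k l hk => ?_⟩, l9, rfl, l9_IsP, by simp [l9]⟩
  · obtain ⟨z, hz, hz'⟩ := rel_of_PL (k := 18 * m + 1) (ClP.dx _ (h1 d m).1)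
      (H_cast (H_dx (h1 d m).2) (by push_cast; ring) rfl)
    rw [(hy d m).dx.uniq hz]; exact hz'
  · rw [← Nat.mul_zero 18, coeff_ser']
    exact (hy d 0).dx.uniq (by rw [h2, dx_f]; exact (Rel.f d).mul (Rel.U 1))
  · simp only [evH_ser]
    refine congrArg ser (funext fun m => ?_)
    refine (Rel.sum _ fun p _ => (hy a p.1).dx.ev (hy b p.2).dx).uniq ?_
    have := congrArg dx (h5 a b m)
    simp only [map_sum, dx_ev] at this
    rw [this]
    exact Rel.sum _ fun p _ => (hy b p.1).dx.ev (hy a p.2).dx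
  · rw [← Nat.mul_zero 18, coeff_ser', hy0]
  · simp only [brH, hhm, hQ, evH_ser]
    refine congrArg ser (funext fun m => ?_)
    refine (Rel.sum _ fun r _ => (hy q r.1).dx.ev (hy p r.2)).uniq ?_
    rw [h5]
    exact Rel.sum _ fun r _ => (hy p r.1).dx.ev (hy q r.2)
  · rw [brH, hQ, evH_u, ← dXH_ser, hu, dXH_C, dX_u]
  · rw [brH, evH_u]
    have : vrH (PowerSeries.C u) = PowerSeries.C 1 := by
      ext1 k
      rw [vrH, PowerSeries.coeff_mk, PowerSeries.coeff_C, PowerSeries.coeff_C]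
      split_ifs
      · refine (Rel.U 0).var.uniq ?_
        rw [← f_one, var_f, f_zero]; exact Rel.one
      · exact vr_zero
    rw [this, dXH_C, dX_one, map_zero]
  · have key : ∀ k, ∃ w, PowerSeries.coeff k (ser (y 2) - stdDensity 0 fun k l =>
        if k = 18 then (if l.parts = Multiset.replicate 9 2 then 1 else 0)
        else if 18 ∣ k then c k l else 0) = dX w := by
      intro k
      rw [stdDensity, zero_smul, map_zero, mul_zero, add_zero, map_sub, map_add,
        PowerSeries.coeff_mk, PowerSeries.coeff_C, coeff_ser]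
      by_cases hk : 18 ∣ k
      · obtain ⟨m, rfl⟩ := hk
        rw [if_pos (dvd_mul_right _ _), Nat.mul_div_cancel_left _ (by norm_num)]
        match m with
        | 0 =>
          refine ⟨0, ?_⟩
          rw [dX_zero, hy0]
          have := (Rel.f 3).uniq (((Rel.U 0).pow 3).smul _)
          rw [this]
          simp [UA, Nat.factorial]
        | 1 =>
          rw [if_neg (by norm_num), if_pos (by norm_num), zero_add, Finset.sum_eq_single l9]
          · refine Rel.exact ?_ h6
            refine (hy 2 1).sub ?_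
            have := Rel.UP l9
            have e9 : H979Z.DL.UP l9 = U 2 ^ 9 := by
              rw [H979Z.DL.UP, l9, Multiset.map_replicate, Multiset.prod_replicate]
            rw [e9] at this
            rw [if_pos rfl, if_pos (show l9.parts = Multiset.replicate 9 2 from rfl), one_smul]
            exact this
          · intro l _ hl
            have : l.parts ≠ Multiset.replicate 9 2 := fun h => hl (Nat.Partition.ext h)
            rw [if_pos rfl, if_neg this, zero_smul]
          · intro hl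
            exact absurd (Finset.mem_filter.mpr ⟨Finset.mem_univ _, l9_IsP⟩) hl
        | m + 2 =>
          rw [if_neg (by omega), if_pos (by omega), zero_add]
          refine Rel.exact ?_ (h7 (m + 1))
          refine (hy 2 (m + 2)).sub (Rel.sum _ fun l _ => ?_)
          rw [if_neg (by omega), if_pos (dvd_mul_right _ _)]
          exact (Rel.UP l).smul _
      · refine ⟨0, ?_⟩
        have h0 : k ≠ 0 := by rintro rfl; simp at hk
        have h18 : k ≠ 18 := by rintro rfl; simp at hk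
        simp [hk, h0, h18, dX_zero]
    choose w hw using key
    refine ⟨PowerSeries.mk w, 0, ?_⟩
    ext1 k
    rw [hw]
    simp [coeff_dXH]
  · have h18 : ¬ 18 ∣ k := by
      rintro ⟨m, rfl⟩
      obtain ⟨t, ht⟩ := hk
      omega
    have : k ≠ 18 := by rintro rfl; simp at h18
    simp [this, h18]

end H979Z.DL
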