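import Pool.Agent.H979Z.DL.Res

/-! A Poincaré lemma for the Riemann flows at a turning point. -/

namespace H979Z.DL

open Finset

lemma lead (t : ℕ) : ∀ a b c : ℕ, 2 * a + b = t → ∃ κ : ℕ, 0 < κ ∧
    dxi t (mono (a • e 0 + b • e 1 + c • e 2)) - (κ : ℂ) • U 2 ^ (a + b + c) ∈ I := by
  induction t with
  | zero =>
    intro a b c h
    obtain rfl : a = 0 := by omega
    obtain rfl : b = 0 := by omega
    refine ⟨1, one_pos, ?_⟩
    simp [mono_nsmul, U]
  | succ t ih =>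
    intro a b c h
    set m : E := a • e 0 + b • e 1 + c • e 2 with hm
    have hs : m.support ⊆ range 3 := supp_of_Bd fun i hi => by
      simp only [hm, Finsupp.add_apply, Finsupp.smul_apply, e_apply]
      split_ifs <;> first | omega | simp
    have h0 : m 0 = a := by simp [hm]
    have h1 : m 1 = b := by simp [hm]
    have h2 : m 2 = c := by simp [hm]
    have hd : dx (mono m) = (a : ℂ) • mono (m - e 0 + e 1) + (b : ℂ) • mono (m - e 1 + e 2) +
        (c : ℂ) • mono (m - e 2 + e 3) := by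
      rw [dx, der_mono_eq _ m _ hs]
      simp only [Finset.sum_range_succ, Finset.sum_range_zero, zero_add, mono_U, h0, h1, h2,
        Int.cast_natCast]
    have hA : ∃ κ : ℕ, (0 < a → 0 < κ) ∧
        dxi t ((a : ℂ) • mono (m - e 0 + e 1)) - (κ : ℂ) • U 2 ^ (a + b + c) ∈ I := by
      cases a with
      | zero => exact ⟨0, by simp, by simp⟩
      | succ a =>
        obtain ⟨κ, hκ, h3⟩ := ih a (b + 1) c (by omega)
        refine ⟨(a + 1) * κ, fun _ => by positivity, ?_⟩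
        have e1 : m - e 0 + e 1 = a • e 0 + (b + 1) • e 1 + c • e 2 := by
          rw [hm, succ_nsmul, succ_nsmul]; abel
        have e2 : a + 1 + b + c = a + (b + 1) + c := by ring
        rw [e1, e2, map_smul, Nat.cast_mul, mul_smul, ← smul_sub]
        exact Submodule.smul_mem _ _ h3
    have hB : ∃ κ : ℕ, (0 < b → 0 < κ) ∧
        dxi t ((b : ℂ) • mono (m - e 1 + e 2)) - (κ : ℂ) • U 2 ^ (a + b + c) ∈ I := by
      cases b with
      | zero => exact ⟨0, by simp, by simp⟩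
      | succ b =>
        obtain ⟨κ, hκ, h3⟩ := ih a b (c + 1) (by omega)
        refine ⟨(b + 1) * κ, fun _ => by positivity, ?_⟩
        have e1 : m - e 1 + e 2 = a • e 0 + b • e 1 + (c + 1) • e 2 := by
          rw [hm, succ_nsmul, succ_nsmul]; abel
        have e2 : a + (b + 1) + c = a + b + (c + 1) := by ring
        rw [e1, e2, map_smul, Nat.cast_mul, mul_smul, ← smul_sub]
        exact Submodule.smul_mem _ _ h3
    have hC : dxi t ((c : ℂ) • mono (m - e 2 + e 3)) ∈ I := by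
      rw [map_smul]
      refine Submodule.smul_mem _ _ (Nu_le (Nu_dxi t (t := t + 1) (mono_mem ?_)) (by omega))
      refine ⟨?_, ?_, ?_⟩ <;> simp [h0, h1]
      omega
    obtain ⟨κ1, k1, hA⟩ := hA
    obtain ⟨κ2, k2, hB⟩ := hB
    refine ⟨κ1 + κ2, by omega, ?_⟩
    have := Submodule.add_mem _ (Submodule.add_mem _ hA hB) hC
    convert this using 1
    rw [dxi_succ', hd, map_add, map_add, Nat.cast_add, add_smul]; ring

lemma D_V2_I {d : ℕ} (hd : 1 ≤ d) (j : ℕ) : D d (V 2 ^ j) ∈ I := by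
  induction j with
  | zero => simp
  | succ j ih =>
    rw [pow_succ, D_mul, D_V]
    exact Submodule.add_mem _ (I_mul ih A_V2) (mul_I (A_pow A_V2 j)
      (Submodule.neg_mem _ (mul_I (A_mul A_V2 A_V2) (D_U_I (by omega)))))

lemma slice {d : ℕ} (hd : 1 ≤ d) : ∃ s ∈ A, s ∈ H (-1) (-d) ∧ D d s - 1 ∈ I ∧
    ∀ d', d < d' → D d' s ∈ I := by
  obtain ⟨κ, hκ, h⟩ := lead (2 * d + 1 + 1) (d + 1) 0 0 (by ring)
  have hc : (((d + 1).factorial : ℂ)⁻¹ * κ) ≠ 0 :=
    mul_ne_zero (inv_ne_zero (Nat.cast_ne_zero.mpr (Nat.factorial_ne_zero _)))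
      (Nat.cast_ne_zero.mpr hκ.ne')
  have h1 : D d (U (2 * d + 1)) - (((d + 1).factorial : ℂ)⁻¹ * κ) • U 2 ^ (d + 1) ∈ I := by
    rw [D_U, f_eq, map_smul, mul_smul, ← smul_sub]
    refine Submodule.smul_mem _ _ ?_
    simpa using h
  refine ⟨(((d + 1).factorial : ℂ)⁻¹ * κ)⁻¹ • (U (2 * d + 1) * V 2 ^ (d + 1)),
    Submodule.smul_mem _ _ (A_mul (A_U _) (A_pow A_V2 _)), Submodule.smul_mem _ _ ?_, ?_, ?_⟩
  · exact H_cast (H_mul (H_U _) (H_pow H_V2 _)) (by push_cast; ring) (by push_cast; ring)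
  · rw [← Submodule.smul_mem_iff _ hc, Derivation.map_smul, smul_sub, smul_smul,
      mul_inv_cancel₀ hc, one_smul, D_mul]
    have h2 := I_mul h1 (A_pow A_V2 (d + 1))
    have h3 := mul_I (A_U (2 * d + 1)) (D_V2_I hd (d + 1))
    have := Submodule.add_mem _ h2 h3
    convert this using 1
    rw [sub_mul, smul_mul_assoc, ← mul_pow, U_mul_V, one_pow]; ring
  · intro d' hd'
    rw [Derivation.map_smul, D_mul]
    exact Submodule.smul_mem _ _ (Submodule.add_mem _ (I_mul (D_U_I (by omega)) (A_pow A_V2 _))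
      (mul_I (A_U _) (D_V2_I (by omega) _)))

lemma D_pow_I {d : ℕ} {s : B} (hs : s ∈ A) (h : D d s ∈ I) (j : ℕ) : D d (s ^ j) ∈ I := by
  induction j with
  | zero => simp
  | succ j ih =>
    rw [pow_succ, D_mul]
    exact Submodule.add_mem _ (I_mul ih hs) (mul_I (A_pow hs j) h)

lemma P1 {d : ℕ} (hd : 1 ≤ d) {s : B} (hsA : s ∈ A) (hsH : s ∈ H (-1) (-d)) (hs1 : D d s - 1 ∈ I)
    (hs2 : ∀ d', d < d' → D d' s ∈ I) (t : ℕ) : ∀ (k n : ℤ) (θ : B), θ ∈ A → θ ∈ H k n →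
    k - 2 * n < t → (∀ d', d < d' → D d' θ ∈ I) → ∀ i : ℕ,
    ∃ ρ ∈ A, ρ ∈ H (k - (i + 1)) (n - (i + 1) * d) ∧ D d ρ - s ^ i * θ ∈ I ∧
      ∀ d', d < d' → D d' ρ ∈ I := by
  induction t with
  | zero =>
    intro k n θ hA hH hk _ i
    refine ⟨0, Submodule.zero_mem _, Submodule.zero_mem _, ?_, fun _ _ => by simp⟩
    simpa using mul_I (A_pow hsA i) (I_of_neg (by push_cast at hk; omega) hA hH)
  | succ t ih =>
    intro k n θ hA hH hk hθ i
    obtain ⟨ρ, h1, h2, h3, h4⟩ := ih (k + 1) (n + d) (D d θ) (A_D d hA) (H_D d hH)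
      (by push_cast at hk; omega) (fun d' hd' => by rw [D_comm]; exact I_D hd (hθ d' hd')) (i + 1)
    refine ⟨(((i + 1 : ℕ) : ℂ)⁻¹) • (s ^ (i + 1) * θ - ρ), Submodule.smul_mem _ _
      (Submodule.sub_mem _ (A_mul (A_pow hsA _) hA) h1), Submodule.smul_mem _ _
      (Submodule.sub_mem _ ?_ ?_), ?_, ?_⟩
    · exact H_cast (H_mul (H_pow hsH _) hH) (by push_cast; ring) (by push_cast; ring)
    · exact H_cast h2 (by push_cast; ring) (by push_cast; ring)
    · rw [← Submodule.smul_mem_iff _ (cast_ne i), Derivation.map_smul, smul_sub, smul_smul,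
        mul_inv_cancel₀ (cast_ne i), one_smul, map_sub, D_mul, Derivation.leibniz_pow]
      have h5 := Submodule.smul_mem _ ((i + 1 : ℕ) : ℂ) (I_mul (mul_I (A_pow hsA i) hs1) hA)
      have := Submodule.sub_mem _ h5 h3
      convert this using 1
      rw [Nat.add_sub_cancel, smul_eq_mul, Nat.cast_smul_eq_nsmul, Nat.cast_smul_eq_nsmul]
      simp only [nsmul_eq_mul]; ring
    · intro d' hd'
      rw [Derivation.map_smul, map_sub, D_mul]
      exact Submodule.smul_mem _ _ (Submodule.sub_mem _ (Submodule.add_mem _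
        (I_mul (D_pow_I hsA (hs2 d' hd') _) hA) (mul_I (A_pow hsA _) (hθ d' hd'))) (h4 d' hd'))

lemma P2 (k n : ℤ) (M : ℕ) : ∀ θ : ℕ → B, (∀ d, 1 ≤ d → θ d ∈ A) →
    (∀ d : ℕ, 1 ≤ d → θ d ∈ H k (n + d)) →
    (∀ d d', 1 ≤ d → 1 ≤ d' → D d' (θ d) - D d (θ d') ∈ I) → (∀ d, M < d → θ d ∈ I) →
    ∃ ρ ∈ A, ρ ∈ H (k - 1) n ∧ ∀ d, 1 ≤ d → D d ρ - θ d ∈ I := by
  induction M with
  | zero =>
    intro θ _ _ _ h
    exact ⟨0, Submodule.zero_mem _, Submodule.zero_mem _, fun d hd => by simpa using h d hd⟩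
  | succ M ih =>
    intro θ hA hH hc h
    have hd : 1 ≤ M + 1 := by omega
    obtain ⟨s, s1, s2, s3, s4⟩ := slice hd
    obtain ⟨ρ, h1, h2, h3, h4⟩ := P1 hd s1 s2 s3 s4 ((k - 2 * (n + (M + 1 : ℕ))).toNat + 1) k
      (n + (M + 1 : ℕ)) (θ (M + 1)) (hA _ hd) (hH _ hd) (by push_cast; omega) (fun d' hd' => by
        simpa using Submodule.add_mem _ (hc (M + 1) d' hd (by omega)) (I_D hd (h d' hd'))) 0
    have h2' : ρ ∈ H (k - 1) n := H_cast h2 (by push_cast; ring) (by push_cast; ring)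
    obtain ⟨ρ', g1, g2, g3⟩ := ih (fun d => θ d - D d ρ)
      (fun d hd => Submodule.sub_mem _ (hA d hd) (A_D d h1))
      (fun d hd => Submodule.sub_mem _ (hH d hd) (H_cast (H_D d h2') (by ring) rfl))
      (fun d d' hd hd' => by
        have := hc d d' hd hd'
        convert this using 1
        rw [map_sub, map_sub, D_comm]; ring)
      (fun d hd' => by
        by_cases h5 : d = M + 1
        · subst h5
          simpa using Submodule.neg_mem _ h3
        · exact Submodule.sub_mem _ (h d (by omega)) (h4 d (by omega)))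
    refine ⟨ρ + ρ', Submodule.add_mem _ h1 g1, Submodule.add_mem _ h2' g2, fun d hd => ?_⟩
    have := g3 d hd
    convert this using 1
    rw [map_add]; ring

/-- no `u`, no `u_1` -/
def Z0 : Set E := {m | m 0 = 0 ∧ m 1 = 0}

lemma proj0 {k n : ℤ} {x : B} (hA : x ∈ A) (hH : x ∈ H k n) :
    ∃ y ∈ sp (HS k n ∩ Z0), x - y ∈ I := by
  have : sp (NS 0 ∩ HS k n) ≤ sp (HS k n ∩ Z0) ⊔ I := by
    refine sp_le fun m hm => ?_
    obtain ⟨⟨h1, h2, h3⟩, h4⟩ := hm
    by_cases h : m 0 = 0 ∧ m 1 = 0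
    · exact Submodule.mem_sup_left (mono_mem ⟨h4, h⟩)
    · exact Submodule.mem_sup_right (mono_mem ⟨h1, h2, by omega⟩)
  obtain ⟨y, hy, z, hz, rfl⟩ := Submodule.mem_sup.mp (this (mem_sp_inter hA hH))
  exact ⟨y, hy, by simpa using hz⟩

lemma poincare (k n : ℤ) (θ : ℕ → B) (hA : ∀ d, 1 ≤ d → θ d ∈ A)
    (hH : ∀ d : ℕ, 1 ≤ d → θ d ∈ H k (n + d))
    (hc : ∀ d d', 1 ≤ d → 1 ≤ d' → D d' (θ d) - D d (θ d') ∈ I) :
    ∃ ρ ∈ sp (HS (k - 1) n ∩ Z0), ∀ d, 1 ≤ d → D d ρ - θ d ∈ I := by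
  obtain ⟨ρ, h1, h2, h3⟩ := P2 k n (k - 2 * n).toNat θ hA hH hc fun d hd =>
    I_of_neg (by omega) (hA d (by omega)) (hH d (by omega))
  obtain ⟨y, hy, h4⟩ := proj0 h1 h2
  refine ⟨y, hy, fun d hd => ?_⟩
  have := Submodule.sub_mem _ (h3 d hd) (I_D hd h4)
  convert this using 1
  rw [map_sub]; ring

end H979Z.DL
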