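import Pool.Agent.H979Z.DL.Var
import Pool.Agent.H930Z.Riem.Calc

/-! The canonical flow generated by a sequence `S` and the transformed Hamiltonians. -/

namespace H979Z.DL

open Finset

lemma mem_ad {p : ℕ × ℕ} {n : ℕ} (h : p ∈ antidiagonal n) : p.1 + p.2 = n := by simpa using h

noncomputable def f (n : ℕ) : B := ((n.factorial : ℂ)⁻¹) • U 0 ^ n

lemma f_zero : f 0 = 1 := by simp [f]

lemma f_one : f 1 = U 0 := by simp [f]

lemma D_f (D : Derivation ℂ B B) (n : ℕ) : D (f (n + 1)) = f n * D (U 0) := by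
  rw [f, f, Derivation.map_smul, Derivation.leibniz_pow, Nat.factorial_succ, smul_mul_assoc,
    Nat.add_sub_cancel, smul_eq_mul, ← Nat.cast_smul_eq_nsmul ℂ, smul_smul]
  congr 1
  have : (n.factorial : ℂ) ≠ 0 := Nat.cast_ne_zero.mpr n.factorial_ne_zero
  have h2 : ((n + 1 : ℕ) : ℂ) ≠ 0 := Nat.cast_ne_zero.mpr (Nat.succ_ne_zero n)
  rw [Nat.cast_mul]
  field_simp

lemma dx_f (n : ℕ) : dx (f (n + 1)) = f n * U 1 := by rw [D_f, dx_U]

lemma pd0_f (n : ℕ) : pd 0 (f (n + 1)) = f n := by rw [D_f, pd_U]; simp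

lemma var_f (n : ℕ) : var (f (n + 1)) = f n := by
  refine eq_of_pair fun P => ?_
  have := Submodule.neg_mem _ (F2 P (f (n + 1)))
  rw [D_f, ev_U] at this
  simpa using this

/-- the Riemann flows -/
noncomputable def D (d : ℕ) : Derivation ℂ B B := ev (dx (f (d + 1)))

lemma br_f (x : B) (d : ℕ) : br x (f (d + 2)) = D d x := by
  rw [br, ham, var_f, D]

lemma D_f' (d n : ℕ) : D d (f (n + 1)) = f n * (f d * U 1) := by
  rw [D_f, D, ev_U, dx_f]; rfl

lemma D_comm (d d' : ℕ) (x : B) : D d (D d' x) = D d' (D d x) := by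
  have h := ev_ev (dx (f (d + 1))) (dx (f (d' + 1))) x
  have h2 : ev (dx (f (d + 1))) (dx (f (d' + 1))) - ev (dx (f (d' + 1))) (dx (f (d + 1))) = 0 := by
    rw [← dx_ev, ← dx_ev, ← map_sub]
    change dx (D d _ - D d' _) = 0
    rw [D_f', D_f', mul_left_comm, sub_self, map_zero]
  rw [h2, ev_zero] at h
  simpa [D] using h

lemma dx_D (d : ℕ) (x : B) : dx (D d x) = D d (dx x) := dx_ev _ _

lemma D_zero : D 0 = dx := by rw [D, dx_f, f_zero, one_mul, ev_U1]

lemma D_U (d i : ℕ) : D d (U i) = dxi (i + 1) (f (d + 1)) := by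
  rw [D, ev_U, dxi_eq, dxi_succ']

lemma pd0_D {x : B} (hx : pd 0 x = 0) (d : ℕ) : pd 0 (D (d + 1) x) = D d x := by
  rw [D, pd_zero_ev, hx, map_zero, zero_add, pd_zero_dx, pd0_f, D]

noncomputable def G (S : ℕ → B) (x : B) : ℕ → B
  | 0 => x
  | m + 1 => (((m + 1 : ℕ) : ℂ)⁻¹) • ∑ j : Fin (m + 1), br (G S x (m - j)) (S j)
decreasing_by omega

lemma G_zero (S : ℕ → B) (x : B) : G S x 0 = x := by rw [G]

lemma G_succ (S : ℕ → B) (x : B) (m : ℕ) :
    G S x (m + 1) = (((m + 1 : ℕ) : ℂ)⁻¹) • ∑ p ∈ antidiagonal m, br (G S x p.2) (S p.1) := by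
  rw [G, Finset.Nat.sum_antidiagonal_eq_sum_range_succ (fun i j => br (G S x j) (S i)),
    Finset.sum_range (fun i => br (G S x (m - i)) (S i))]

lemma cast_ne (m : ℕ) : ((m + 1 : ℕ) : ℂ) ≠ 0 := Nat.cast_ne_zero.mpr (Nat.succ_ne_zero m)

lemma G_succ' (S : ℕ → B) (x : B) (m : ℕ) :
    ((m + 1 : ℕ) : ℂ) • G S x (m + 1) = ∑ p ∈ antidiagonal m, br (G S x p.2) (S p.1) := by
  rw [G_succ, smul_smul, mul_inv_cancel₀ (cast_ne m), one_smul]

lemma G_congr {S S' : ℕ → B} (x : B) (m : ℕ) (h : ∀ j < m, S j = S' j) : G S x m = G S' x m := by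
  induction m using Nat.strong_induction_on with
  | _ m ih =>
    cases m with
    | zero => rw [G_zero, G_zero]
    | succ m =>
      rw [G_succ, G_succ]
      refine congrArg _ (Finset.sum_congr rfl fun p hp => ?_)
      replace hp := mem_ad hp
      rw [ih p.2 (by omega) fun j hj => h j (by omega), h p.1 (by omega)]

lemma G_Im {S : ℕ → B} {x : B} (h : ∀ s, br x s ∈ Im) (m : ℕ) : G S x (m + 1) ∈ Im := by
  induction m using Nat.strong_induction_on with
  | _ m ih =>
    rw [G_succ]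
    refine Submodule.smul_mem _ _ (Submodule.sum_mem _ fun p hp => ?_)
    replace hp := mem_ad hp
    rcases h2 : p.2 with _ | k
    · rw [G_zero]; exact h _
    · exact br_Im_left (ih k (by omega)) _

lemma br_f_left (d : ℕ) (s : B) : br (f (d + 2)) s + D d s ∈ Im := by
  rw [← br_f]; exact br_anti _ _

lemma G_f2 (S : ℕ → B) (m : ℕ) : G S (f 2) (m + 1) ∈ Im := G_Im (fun s => by
  have := Submodule.sub_mem _ (br_f_left 0 s) (dx_mem_Im s)
  rw [D_zero] at this
  simpa using this) m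

lemma pd0_G {S : ℕ → B} (x : B) (m : ℕ) (h : ∀ j < m, pd 0 (S j) = 0) :
    pd 0 (G S x m) = G S (pd 0 x) m := by
  induction m using Nat.strong_induction_on with
  | _ m ih =>
    cases m with
    | zero => rw [G_zero, G_zero]
    | succ m =>
      rw [G_succ, G_succ, Derivation.map_smul, map_sum]
      refine congrArg _ (Finset.sum_congr rfl fun p hp => ?_)
      replace hp := mem_ad hp
      rw [pd0_br (h p.1 (by omega)), ih p.2 (by omega) fun j hj => h j (by omega)]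

noncomputable def CC (S : ℕ → B) (x y : B) (m : ℕ) : B :=
  ∑ p ∈ antidiagonal m, br (G S x p.1) (G S y p.2)

lemma CC_succ (S : ℕ → B) (x y : B) (m : ℕ) :
    ((m + 1 : ℕ) : ℂ) • CC S x y (m + 1) = ∑ p ∈ antidiagonal m, br (CC S x y p.2) (S p.1) := by
  have h1 : ((m + 1 : ℕ) : ℂ) • CC S x y (m + 1) =
      ∑ p ∈ antidiagonal (m + 1), (p.1 : ℂ) • br (G S x p.1) (G S y p.2) +
      ∑ p ∈ antidiagonal (m + 1), (p.2 : ℂ) • br (G S x p.1) (G S y p.2) := by
    rw [CC, Finset.smul_sum, ← Finset.sum_add_distrib]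
    refine Finset.sum_congr rfl fun p hp => ?_
    replace hp := mem_ad hp
    rw [← add_smul, ← hp, Nat.cast_add]
  rw [h1, Finset.Nat.sum_antidiagonal_succ, Finset.Nat.sum_antidiagonal_succ']
  simp only [Nat.cast_zero, zero_smul, zero_add]
  simp only [← br_smul_left, G_succ']
  simp only [br_smul_left, ← br_smul_right, G_succ']
  simp only [br_sum_left, br_sum_right, CC, br_jac _ _ (S _), Finset.sum_add_distrib]
  rw [H930Z.Riem.tri1 (fun a b c => br (br (G S x b) (S a)) (G S y c)),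
    H930Z.Riem.tri2 (fun a b c => br (G S x a) (br (G S y c) (S b)))]

lemma CC_Im (S : ℕ → B) {x y : B} (h : br x y ∈ Im) (m : ℕ) : CC S x y m ∈ Im := by
  induction m using Nat.strong_induction_on with
  | _ m ih =>
    cases m with
    | zero => simpa [CC, G_zero] using h
    | succ m =>
      have h1 : ((m + 1 : ℕ) : ℂ) • CC S x y (m + 1) ∈ Im := by
        rw [CC_succ]
        refine Submodule.sum_mem _ fun p hp => ?_
        replace hp := mem_ad hp
        exact br_Im_left (ih p.2 (by omega)) _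
      exact (Submodule.smul_mem_iff _ (cast_ne m)).mp h1

lemma f_mul (a b : ℕ) : ∃ c : ℂ, f a * f b = c • f (a + b) := by
  refine ⟨(a.factorial : ℂ)⁻¹ * (b.factorial : ℂ)⁻¹ * ((a + b).factorial : ℂ), ?_⟩
  have : ((a + b).factorial : ℂ) ≠ 0 := Nat.cast_ne_zero.mpr (a + b).factorial_ne_zero
  rw [f, f, f, smul_mul_smul_comm, smul_smul, mul_assoc, mul_inv_cancel₀ this, mul_one, pow_add]

lemma br_f_f (a b : ℕ) : br (f (a + 2)) (f (b + 2)) ∈ Im := by
  obtain ⟨c, hc⟩ := f_mul (a + 1) b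
  rw [br_f, D_f', ← mul_assoc, hc, smul_mul_assoc, ← dx_f]
  exact Submodule.smul_mem _ _ (dx_mem_Im _)

end H979Z.DL
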