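import Pool.Agent.H979Z.DL.Sets

/-! Residues at `u_1 = 0`. -/

namespace H979Z.DL

open Finset

noncomputable def W : B := V 1 * U 2

lemma W_eq : W = mono (e 2 - e 1) := by rw [W, V, U, ← mono_add, sub_eq_neg_add]

lemma mono_W (m : E) : W * mono m = mono (m + e 2 - e 1) := by
  rw [W_eq, ← mono_add]; congr 1; abel

/-- `dx` without the term that differentiates `U t` -/
noncomputable def dxo (t : ℕ) : Derivation ℂ B B := der fun i => if i = t then 0 else U (i + 1)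

lemma dx_split (t : ℕ) (x : B) : dx x = dxo t x + U (t + 1) * pd t x := by
  have : dx = dxo t + U (t + 1) • pd t := der_ext fun i => by
    rw [dx_U, Derivation.add_apply, Derivation.smul_apply, pd_U, dxo, der_U]
    split_ifs with h <;> simp [h]
  rw [this]; rfl

lemma dxo_mem (t : ℕ) {S T : Set E} {x : B} (hx : x ∈ sp S)
    (h : ∀ m ∈ S, ∀ i, i ≠ t → m i ≠ 0 → m - e i + e (i + 1) ∈ T) : dxo t x ∈ sp T :=
  der_mem _ hx fun m hm i hi => by
    split_ifs with h1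
    · simp
    · rw [mono_U]; exact mono_mem (h m hm i h1 hi)

lemma dx_mono_split (t : ℕ) (m : E) :
    dx (mono m) = dxo t (mono m) + (m t : ℂ) • mono (m - e t + e (t + 1)) := by
  rw [dx_split t, pd_mono, mul_smul_comm, mul_comm, mono_U]

lemma F_le {p p' : ℤ} {x : B} (h : x ∈ F p) (hp : p' ≤ p) : x ∈ F p' :=
  sp_mono (S := FS p) (T := FS p') (fun _ hm => hp.trans hm) h

lemma F_mul {p q : ℤ} {x y : B} (hx : x ∈ F p) (hy : y ∈ F q) : x * y ∈ F (p + q) :=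
  mul_mem hx hy fun m hm n hn => by
    change p ≤ m 1 at hm
    change q ≤ n 1 at hn
    change p + q ≤ (m + n) 1
    rw [Finsupp.add_apply]; omega

lemma F_dxo {p : ℤ} {x : B} (hx : x ∈ F p) : dxo 1 x ∈ F p :=
  dxo_mem 1 hx fun m hm i hi _ => by
    change p ≤ m 1 at hm
    change p ≤ (m - e i + e (i + 1)) 1
    simp only [Finsupp.add_apply, Finsupp.sub_apply, e_apply]
    split_ifs <;> omega

lemma F_dx {x : B} (hx : x ∈ F 0) : dx x ∈ F 0 :=
  der_mem _ hx fun m hm i hi => by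
    rw [mono_U]
    refine mono_mem ?_
    change 0 ≤ m 1 at hm
    change 0 ≤ (m - e i + e (i + 1)) 1
    simp only [Finsupp.add_apply, Finsupp.sub_apply, e_apply]
    split_ifs <;> subst_vars <;> omega

lemma F_mono {p : ℤ} {m : E} (h : p ≤ m 1) : mono m ∈ F p := mono_mem h

lemma A_F {x : B} (hx : x ∈ A) : x ∈ F 0 :=
  sp_mono (S := NS 0) (T := FS 0) (fun _ hm => hm.2.1) hx

lemma exists_F (y : B) : ∃ t : ℕ, y ∈ F (-t) := by
  refine ⟨y.coeff.support.sup fun m => (m 1).natAbs, ?_⟩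
  rw [F, mem_sp]
  intro m hm
  have h2 : (m 1).natAbs ≤ y.coeff.support.sup fun m => (m 1).natAbs :=
    Finset.le_sup (f := fun m : E => (m 1).natAbs) (Finsupp.mem_support_iff.mpr hm)
  change _ ≤ m 1
  omega

lemma pole_lemma {y : B} (h : dx y ∈ F (-1)) : y ∈ F 0 := by
  have key : ∀ t : ℕ, y ∈ F (-t) → y ∈ F 0 := by
    intro t
    induction t with
    | zero => intro h; simpa using h
    | succ t ih =>
      intro hy
      apply ih
      have h1 : U 2 * pd 1 y ∈ F (-(t + 1 : ℕ)) := by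
        have := Submodule.sub_mem _ (F_le h (p' := -(t + 1 : ℕ)) (by push_cast; omega)) (F_dxo hy)
        rwa [dx_split 1, add_sub_cancel_left] at this
      have h2 : pd 1 y ∈ F (-(t + 1 : ℕ)) := by
        have := F_mul (F_mono (p := 0) (m := -e 2) (by simp)) h1
        rwa [← V, ← mul_assoc, mul_comm (V 2), U_mul_V, one_mul, zero_add] at this
      rw [F, mem_sp] at hy h2 ⊢
      intro m hm
      have h3 : -((t + 1 : ℕ) : ℤ) ≤ m 1 := hy m hm
      change _ ≤ m 1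
      by_contra hc
      have h4 : (pd 1 y).coeff (m - e 1) ≠ 0 := by
        rw [coeff_pd]
        exact mul_ne_zero (Int.cast_ne_zero.mpr (by omega)) hm
      have h5 : -((t + 1 : ℕ) : ℤ) ≤ (m - e 1) 1 := h2 _ h4
      simp at h5
      omega
  obtain ⟨t, ht⟩ := exists_F y
  exact key t ht

lemma W_F {p : ℤ} {x : B} (hx : x ∈ F p) : W * x ∈ F (p - 1) := by
  have := F_mul (F_mono (p := -1) (m := e 2 - e 1) (by simp)) hx
  rw [← W_eq] at this
  exact F_le this (by omega)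

lemma uniq {x a : B} (hx : x ∈ F 0) (ha : a ∈ F 0) (h : W * x - a ∈ Im) : x ∈ F 1 := by
  obtain ⟨y, hy⟩ := mem_Im.mp h
  have h1 : dx y ∈ F (-1) := by
    rw [hy]
    exact Submodule.sub_mem _ (by simpa using W_F hx) (F_le ha (by norm_num))
  have h2 := F_dx (pole_lemma h1)
  rw [hy] at h2
  have h3 : W * x ∈ F 0 := by simpa using Submodule.add_mem _ h2 ha
  have := F_mul (F_mono (p := 1) (m := e 1 - e 2) (by simp)) h3
  rw [W_eq, ← mul_assoc, ← mono_add] at this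
  simpa [mono_zero] using this

/-- no `u_1` -/
def P0 : Set E := {m | m 1 = 0}

lemma eq_zero_of {x : B} (h1 : x ∈ F 1) (h0 : x ∈ sp P0) : x = 0 := by
  ext m
  by_contra hc
  have h2 : 1 ≤ m 1 := mem_sp.mp h1 m hc
  have h3 : m 1 = 0 := mem_sp.mp h0 m hc
  omega

lemma P0_F {x : B} (h0 : x ∈ sp P0) : x ∈ F 0 :=
  sp_mono (S := P0) (T := FS 0) (fun _ hm => le_of_eq (Eq.symm hm)) h0

def TS (k n r : ℤ) : Set E := HS k n ∩ RS r (3 * r)

noncomputable def Red (k n r : ℤ) : Submodule ℂ B :=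
  (sp (TS k n r ∩ NS 0) ⊔ (sp (TS (k - 1) n r ∩ P0)).map (LinearMap.mulLeft ℂ W)) ⊔ Im

lemma red_aux (k n r : ℤ) (t : ℕ) : sp (TS k n r ∩ FS (-1 - t)) ≤ Red k n r := by
  induction t with
  | zero =>
    refine sp_le fun m hm => ?_
    obtain ⟨⟨⟨h1, h2, h3⟩, h4, h5⟩, h6⟩ := hm
    change _ ≤ m 1 at h6
    have h0 := h1 0 (by norm_num) (by norm_num)
    by_cases h : 0 ≤ m 1
    · exact Submodule.mem_sup_left (Submodule.mem_sup_left
        (mono_mem ⟨⟨⟨h1, h2, h3⟩, h4, h5⟩, h0, h, by omega⟩))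
    · refine Submodule.mem_sup_left (Submodule.mem_sup_right ⟨mono (m + e 1 + -e 2), ?_, ?_⟩)
      · refine mono_mem ⟨⟨⟨(h1.add (Ok_e 1)).add Ok_neg2, ?_, ?_⟩, ?_, ?_⟩, ?_⟩
        · simp [h2]; ring
        · simp [h3]
        · simpa using h4
        · simp; omega
        · change (m + e 1 + -e 2) 1 = 0
          simp; omega
      · change W * _ = _
        rw [mono_W]; congr 1; abel
  | succ t ih =>
    refine sp_le fun m hm => ?_
    obtain ⟨⟨⟨h1, h2, h3⟩, h4, h5⟩, h6⟩ := hm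
    change _ ≤ m 1 at h6
    by_cases h : -1 - t ≤ m 1
    · exact ih (mono_mem ⟨⟨⟨h1, h2, h3⟩, h4, h5⟩, h⟩)
    · have hw := dx_mono_split 1 (m + e 1 + -e 2)
      have e1 : m + e 1 + -e 2 - e 1 + e (1 + 1) = m := by abel
      rw [e1] at hw
      have hc : (((m + e 1 + -e 2) 1 : ℤ) : ℂ) ≠ 0 := Int.cast_ne_zero.mpr (by simp; omega)
      rw [← Submodule.smul_mem_iff _ hc]
      have h7 : dxo 1 (mono (m + e 1 + -e 2)) ∈ Red k n r := by
        refine ih (dxo_mem 1 (mono_mem (S := {m + e 1 + -e 2}) rfl) ?_)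
        rintro _ rfl i hi hi0
        refine ⟨⟨⟨(((h1.add (Ok_e 1)).add Ok_neg2).sub hi0).add (Ok_e _), ?_, ?_⟩, ?_, ?_⟩, ?_⟩
        · simp [h2]; ring
        · simp [h3]
        · simp only [Finsupp.add_apply, Finsupp.sub_apply, Finsupp.neg_apply, e_apply]
          split_ifs <;> first | omega | contradiction
        · simp only [Finsupp.add_apply, Finsupp.sub_apply, Finsupp.neg_apply, e_apply]
          push_cast at h6
          split_ifs <;> first | omega | contradiction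
        · change _ ≤ (m + e 1 + -e 2 - e i + e (i + 1)) 1
          simp only [Finsupp.add_apply, Finsupp.sub_apply, Finsupp.neg_apply, e_apply]
          push_cast at h6
          split_ifs <;> first | omega | contradiction
      have h8 : dx (mono (m + e 1 + -e 2)) ∈ Red k n r := Submodule.mem_sup_right (dx_mem_Im _)
      have := Submodule.sub_mem _ h8 h7
      rwa [hw, add_sub_cancel_left] at this

lemma red {k n r : ℤ} {x : B} (hx : x ∈ sp (TS k n r)) :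
    ∃ a ∈ sp (TS k n r ∩ NS 0), ∃ θ ∈ sp (TS (k - 1) n r ∩ P0), x - a - W * θ ∈ Im := by
  obtain ⟨t, ht⟩ := exists_F x
  have := red_aux k n r t (mem_sp_inter hx (F_le ht (by omega)))
  obtain ⟨y, hy, z, hz, rfl⟩ := Submodule.mem_sup.mp this
  obtain ⟨a, ha, _, ⟨θ, hθ, rfl⟩, rfl⟩ := Submodule.mem_sup.mp hy
  refine ⟨a, ha, θ, hθ, ?_⟩
  convert hz using 1
  change _ + W * θ + _ - _ - _ = _
  ring

/-- regular modulo total derivatives -/
noncomputable def AI : Submodule ℂ B := A ⊔ Im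

lemma mem_AI {x : B} : x ∈ AI ↔ ∃ a ∈ A, x - a ∈ Im := by
  rw [AI, Submodule.mem_sup]
  constructor
  · rintro ⟨a, ha, z, hz, rfl⟩; exact ⟨a, ha, by simpa using hz⟩
  · rintro ⟨a, ha, h⟩; exact ⟨a, ha, _, h, by ring⟩

lemma A_AI {x : B} (h : x ∈ A) : x ∈ AI := Submodule.mem_sup_left h

lemma Im_AI {x : B} (h : x ∈ Im) : x ∈ AI := Submodule.mem_sup_right h

lemma red_reg {k n r : ℤ} {x : B} (hx : x ∈ sp (TS k n r)) (h : x ∈ AI) :
    ∃ a ∈ sp (TS k n r ∩ NS 0), x - a ∈ Im := by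
  obtain ⟨a, ha, θ, hθ, h1⟩ := red hx
  obtain ⟨a', ha', h2⟩ := mem_AI.mp h
  have h0 : θ ∈ sp P0 := sp_mono Set.inter_subset_right hθ
  have haA : a ∈ A := sp_mono Set.inter_subset_right ha
  have h3 : θ ∈ F 1 := uniq (a := a' - a) (P0_F h0) (A_F (Submodule.sub_mem _ ha' haA)) (by
    have := Submodule.sub_mem _ h2 h1
    convert this using 1; ring)
  rw [eq_zero_of h3 h0] at h1
  exact ⟨a, ha, by simpa using h1⟩

/-- residue vanishing at `u = 0` -/
noncomputable def NN : Submodule ℂ B := AI ⊔ I.map (LinearMap.mulLeft ℂ W)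

lemma mem_NN {x : B} : x ∈ NN ↔ ∃ b ∈ I, x - W * b ∈ AI := by
  rw [NN, Submodule.mem_sup]
  constructor
  · rintro ⟨a, ha, _, ⟨b, hb, rfl⟩, rfl⟩
    refine ⟨b, hb, ?_⟩
    change a + W * b - W * b ∈ AI
    simpa using ha
  · rintro ⟨b, hb, h⟩; exact ⟨_, h, _, ⟨b, hb, rfl⟩, by change _ + W * b = _; ring⟩

lemma AI_NN {x : B} (h : x ∈ AI) : x ∈ NN := Submodule.mem_sup_left h

lemma W_I {b : B} (h : b ∈ I) : W * b ∈ NN := Submodule.mem_sup_right ⟨b, h, rfl⟩

lemma I_of_NN {a : B} (ha : a ∈ A) (h : W * a ∈ NN) : a ∈ I := by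
  obtain ⟨b, hb, h1⟩ := mem_NN.mp h
  obtain ⟨a', ha', h2⟩ := mem_AI.mp h1
  have h3 : a - b ∈ A := Submodule.sub_mem _ ha (I_A hb)
  have h4 : a - b ∈ F 1 := uniq (A_F h3) (A_F ha') (by convert h2 using 1; ring)
  have h5 : a - b ∈ I := sp_mono (S := NS 0 ∩ FS 1) (T := NS 1) (fun m hm => by
    obtain ⟨⟨h1, h2, _⟩, h4⟩ := hm
    change 1 ≤ m 1 at h4
    exact ⟨h1, h2, by omega⟩) (mem_sp_inter h3 h4)
  simpa using Submodule.add_mem _ h5 hb

lemma D_W (d : ℕ) : D (d + 1) W = dx (f d * U 1 + f (d + 1) * W) := by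
  have h1 : D (d + 1) (U 1) = f d * U 1 * U 1 + f (d + 1) * U 2 := by
    rw [D_U, dxi_succ, dxi_succ, dxi_zero, dx_f, D_mul, dx_f, dx_U]
  have h2 : f d * U 1 + f (d + 1) * W = V 1 * D (d + 1) (U 1) := by
    rw [h1, W]; linear_combination (-(f d * U 1)) * U_mul_V 1
  have h3 : D (d + 1) (U 2) = dx (D (d + 1) (U 1)) := by rw [dx_D, dx_U]
  rw [h2, W, D_mul, D_mul, D_V, D_V, dx_U, h3]; ring

lemma L1 {d : ℕ} (hd : 1 ≤ d) {ρ : B} (hρ : ρ ∈ A) : D d (W * ρ) - W * D d ρ ∈ NN := by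
  obtain ⟨d, rfl⟩ : ∃ d', d = d' + 1 := ⟨d - 1, by omega⟩
  have h1 : dx ((f d * U 1 + f (d + 1) * W) * ρ) ∈ NN := AI_NN (Im_AI (dx_mem_Im _))
  have h2 : f d * U 1 * dx ρ ∈ NN :=
    AI_NN (A_AI (A_mul (A_mul (Nu_A (Nu_f d)) (A_U 1)) (ClA.dx _ hρ)))
  have h3 : W * (f (d + 1) * dx ρ) ∈ NN :=
    W_I (I_mul (Nu_le (Nu_f _) (by push_cast; omega)) (ClA.dx _ hρ))
  have := Submodule.sub_mem _ (Submodule.sub_mem _ h1 h2) h3
  convert this using 1
  rw [D_mul, D_W, D_mul dx (_ + _)]; ring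

lemma pd0_AI {x : B} (h : x ∈ AI) : pd 0 x ∈ AI := by
  obtain ⟨a, ha, h1⟩ := mem_AI.mp h
  exact mem_AI.mpr ⟨_, ClA.pd 0 _ ha, by rw [← map_sub]; exact pd0_Im h1⟩

lemma D_AI (d : ℕ) {x : B} (h : x ∈ AI) : D d x ∈ AI := by
  obtain ⟨a, ha, h1⟩ := mem_AI.mp h
  exact mem_AI.mpr ⟨_, A_D d ha, by rw [← map_sub]; exact ev_Im _ h1⟩

lemma pd0_W : pd 0 W = 0 := by rw [W_eq, pd_mono]; simp

lemma I_split {b : B} (hb : b ∈ I) :
    ∃ b0 ∈ sp {m | m 1 = 0 ∧ 1 ≤ m 0}, W * (b - b0) ∈ A := by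
  have : I ≤ sp {m | m 1 = 0 ∧ 1 ≤ m 0} ⊔ A.comap (LinearMap.mulLeft ℂ W) := by
    refine sp_le fun m hm => ?_
    obtain ⟨h1, h2, h3⟩ := hm
    by_cases h : m 1 = 0
    · exact Submodule.mem_sup_left (mono_mem ⟨h, by omega⟩)
    · refine Submodule.mem_sup_right ?_
      change W * mono m ∈ A
      rw [mono_W]
      refine mono_mem ⟨?_, ?_, ?_⟩ <;> simp <;> omega
  obtain ⟨y, hy, z, hz, rfl⟩ := Submodule.mem_sup.mp (this hb)
  exact ⟨y, hy, by simpa using hz⟩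

lemma fin_step {x : B} (h1 : x ∈ NN) (h2 : pd 0 x ∈ AI) : x ∈ AI := by
  obtain ⟨b, hb, h3⟩ := mem_NN.mp h1
  obtain ⟨b0, hb0, h4⟩ := I_split hb
  have h5 : x - W * b0 ∈ AI := by
    have := Submodule.add_mem _ h3 (A_AI h4)
    convert this using 1; ring
  have h6 : W * pd 0 b0 ∈ AI := by
    have := Submodule.sub_mem _ h2 (pd0_AI h5)
    convert this using 1
    rw [map_sub, D_mul, pd0_W]; ring
  obtain ⟨a, ha, h7⟩ := mem_AI.mp h6
  have h8 : pd 0 b0 ∈ sp P0 := der_mem _ hb0 fun m hm i _ => by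
    split_ifs with h
    · subst h; rw [mul_one]; refine mono_mem ?_
      change (m - e 0) 1 = 0
      simp [hm.1]
    · simp
  have h9 := eq_zero_of (uniq (P0_F h8) (A_F ha) h7) h8
  have h10 : b0 = 0 := by
    ext m
    by_contra hc
    have := coeff_pd 0 b0 m
    rw [h9] at this
    have h11 := (mem_sp.mp hb0 m hc).2
    exact mul_ne_zero (Int.cast_ne_zero.mpr (by omega)) hc this.symm
  simpa [h10] using h5

end H979Z.DL
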