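import Pool.Agent.H979Z.DL.Rec

/-! Gradings and filtrations. -/

namespace H979Z.DL

open Finset

noncomputable def wt (w : ℕ → ℤ) : E →+ ℤ :=
  Finsupp.liftAddHom fun i => AddMonoidHom.mulRight (w i)

lemma wt_e (w : ℕ → ℤ) (i : ℕ) : wt w (e i) = w i := by simp [wt, e]

lemma wt_eq (w : ℕ → ℤ) (m : E) (s : Finset ℕ) (hs : m.support ⊆ s) :
    wt w m = ∑ i ∈ s, m i * w i := by
  rw [wt, Finsupp.liftAddHom_apply, Finsupp.sum_of_support_subset _ hs _ (by simp)]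
  rfl

noncomputable def K : E →+ ℤ := wt fun i => i

noncomputable def N : E →+ ℤ := wt fun _ => 1

@[simp] lemma K_e (i : ℕ) : K (e i) = i := wt_e _ _

@[simp] lemma N_e (i : ℕ) : N (e i) = 1 := wt_e _ _

def Ok (m : E) : Prop := ∀ i, i ≠ 1 → i ≠ 2 → 0 ≤ m i

lemma Ok.add {m n : E} (hm : Ok m) (hn : Ok n) : Ok (m + n) := fun i h1 h2 => by
  rw [Finsupp.add_apply]; exact add_nonneg (hm i h1 h2) (hn i h1 h2)

lemma Ok_e (i : ℕ) : Ok (e i) := fun j _ _ => by rw [e_apply]; split_ifs <;> simp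

lemma Ok.sub {m : E} (hm : Ok m) {i : ℕ} (hi : m i ≠ 0) : Ok (m - e i) := fun j h1 h2 => by
  have := hm j h1 h2
  rw [Finsupp.sub_apply, e_apply]
  split_ifs with h
  · subst h; omega
  · omega

lemma Ok_neg1 : Ok (-e 1) := fun j h _ => by simp [Ne.symm h]

lemma Ok_neg2 : Ok (-e 2) := fun j _ h => by simp [Ne.symm h]

lemma Ok_zero : Ok 0 := fun _ _ _ => le_rfl

lemma mono_U (m : E) (i : ℕ) : mono m * U i = mono (m + e i) := (mono_add _ _).symm

/-! ### homogeneity -/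

def HS (k n : ℤ) : Set E := {m | Ok m ∧ K m = k ∧ N m = n}

noncomputable def H (k n : ℤ) : Submodule ℂ B := sp (HS k n)

lemma H_cast {k n k' n' : ℤ} {x : B} (h : x ∈ H k n) (hk : k = k') (hn : n = n') : x ∈ H k' n' :=
  hk ▸ hn ▸ h

lemma H_mul {k n k' n' : ℤ} {x y : B} (hx : x ∈ H k n) (hy : y ∈ H k' n') :
    x * y ∈ H (k + k') (n + n') :=
  mul_mem hx hy fun _ hm _ hn => ⟨hm.1.add hn.1, by rw [map_add, hm.2.1, hn.2.1],
    by rw [map_add, hm.2.2, hn.2.2]⟩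

lemma H_sub {k n : ℤ} {m : E} (hm : m ∈ HS k n) {i : ℕ} (hi : m i ≠ 0) :
    mono (m - e i) ∈ H (k - i) (n - 1) :=
  mono_mem ⟨hm.1.sub hi, by rw [map_sub, hm.2.1, K_e], by rw [map_sub, hm.2.2, N_e]⟩

lemma H_U (i : ℕ) : U i ∈ H i 1 := mono_mem ⟨Ok_e i, K_e i, N_e i⟩

lemma H_V1 : V 1 ∈ H (-1) (-1) := mono_mem ⟨Ok_neg1, by simp, by simp⟩

lemma H_V2 : V 2 ∈ H (-2) (-1) := mono_mem ⟨Ok_neg2, by simp, by simp⟩

lemma H_one : (1 : B) ∈ H 0 0 := mono_mem (m := 0) ⟨Ok_zero, by simp, by simp⟩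

lemma H_pow {k n : ℤ} {x : B} (hx : x ∈ H k n) (j : ℕ) : x ^ j ∈ H (j * k) (j * n) := by
  induction j with
  | zero => simpa using H_one
  | succ j ih => rw [pow_succ]; exact H_cast (H_mul ih hx) (by push_cast; ring) (by push_cast; ring)

lemma H_der (a : ℕ → B) {k n k' n' : ℤ} (ha : ∀ i : ℕ, a i ∈ H (k' + i) n') {x : B}
    (hx : x ∈ H k n) : der a x ∈ H (k + k') (n + n' - 1) :=
  der_mem a hx fun _ hm i hi => H_cast (H_mul (H_sub hm hi) (ha i)) (by ring) (by ring)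

lemma H_pd (i : ℕ) {k n : ℤ} {x : B} (hx : x ∈ H k n) : pd i x ∈ H (k - i) (n - 1) :=
  der_mem _ hx fun _ hm j hj => by
    split_ifs with h
    · subst h; rw [mul_one]; exact H_sub hm hj
    · simp

lemma H_dx {k n : ℤ} {x : B} (hx : x ∈ H k n) : dx x ∈ H (k + 1) n :=
  H_cast (H_der _ (k' := 1) (n' := 1) (fun i => H_cast (H_U (i + 1)) (by push_cast; ring) rfl) hx)
    rfl (by ring)

lemma H_dxi (j : ℕ) {k n : ℤ} {x : B} (hx : x ∈ H k n) : dxi j x ∈ H (k + j) n := by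
  induction j with
  | zero => simpa using hx
  | succ j ih => rw [dxi_succ]; exact H_cast (H_dx ih) (by push_cast; ring) rfl

lemma H_var {k n : ℤ} {x : B} (hx : x ∈ H k n) : var x ∈ H k (n - 1) := by
  obtain ⟨M, hM⟩ := exists_Bd x
  rw [var_eq_sum hM]
  exact Submodule.sum_mem _ fun i _ => Submodule.smul_mem _ _
    (H_cast (H_dxi i (H_pd i hx)) (by ring) rfl)

lemma H_ev {k n k' n' : ℤ} {P x : B} (hP : P ∈ H k' n') (hx : x ∈ H k n) :
    ev P x ∈ H (k + k') (n + n' - 1) :=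
  H_der _ (fun i => by rw [dxi_eq]; exact H_dxi i hP) hx

lemma H_br {k n k' n' : ℤ} {x s : B} (hx : x ∈ H k n) (hs : s ∈ H k' n') :
    br x s ∈ H (k + k' + 1) (n + n' - 2) :=
  H_cast (H_ev (H_dx (H_var hs)) hx) (by ring) (by ring)

lemma H_f (n : ℕ) : f n ∈ H 0 n :=
  Submodule.smul_mem _ _ (H_cast (H_pow (H_U 0) n) (by simp) (by simp))

lemma H_D (d : ℕ) {k n : ℤ} {x : B} (hx : x ∈ H k n) : D d x ∈ H (k + 1) (n + d) :=
  H_cast (H_ev (H_dx (H_f (d + 1))) hx) (by ring) (by push_cast; ring)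

/-! ### bounds on the powers of `u` and `u_1` -/

def RS (r z : ℤ) : Set E := {m | m 0 ≤ r ∧ 3 * m 0 + 2 * m 1 ≤ z}

noncomputable def R (r z : ℤ) : Submodule ℂ B := sp (RS r z)

lemma R_le {r z r' z' : ℤ} {x : B} (h : x ∈ R r z) (hr : r ≤ r') (hz : z ≤ z') : x ∈ R r' z' :=
  sp_mono (S := RS r z) (T := RS r' z') (fun _ hm => ⟨hm.1.trans hr, hm.2.trans hz⟩) h

lemma R_mul {r z r' z' : ℤ} {x y : B} (hx : x ∈ R r z) (hy : y ∈ R r' z') :
    x * y ∈ R (r + r') (z + z') :=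
  mul_mem hx hy fun _ hm _ hn => by
    obtain ⟨h1, h2⟩ := hm
    obtain ⟨h3, h4⟩ := hn
    constructor <;> simp only [Finsupp.add_apply] <;> omega

lemma R_sub {r z : ℤ} {m : E} (hm : m ∈ RS r z) (i : ℕ) : mono (m - e i) ∈ R r z :=
  mono_mem (by
    obtain ⟨h1, h2⟩ := hm
    constructor <;> simp only [Finsupp.sub_apply, e_apply] <;> split_ifs <;> omega)

lemma R_pd (i : ℕ) {r z : ℤ} {x : B} (hx : x ∈ R r z) : pd i x ∈ R r z :=
  der_mem _ hx fun _ hm j _ => by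
    split_ifs with h
    · rw [mul_one]; exact R_sub hm j
    · simp

lemma R_dx {r z : ℤ} {x : B} (hx : x ∈ R r z) : dx x ∈ R r z :=
  der_mem _ hx fun _ hm j _ => by
    rw [mono_U]
    refine mono_mem ?_
    obtain ⟨h1, h2⟩ := hm
    constructor <;> simp only [Finsupp.add_apply, Finsupp.sub_apply, e_apply] <;>
      split_ifs <;> first | omega | contradiction

lemma R_dxi (j : ℕ) {r z : ℤ} {x : B} (hx : x ∈ R r z) : dxi j x ∈ R r z := by
  induction j with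
  | zero => simpa using hx
  | succ j ih => rw [dxi_succ]; exact R_dx ih

lemma R_var {r z : ℤ} {x : B} (hx : x ∈ R r z) : var x ∈ R r z := by
  obtain ⟨M, hM⟩ := exists_Bd x
  rw [var_eq_sum hM]
  exact Submodule.sum_mem _ fun i _ => Submodule.smul_mem _ _ (R_dxi i (R_pd i hx))

lemma R_br {r z r' z' : ℤ} {x s : B} (hx : x ∈ R r z) (hs : s ∈ R r' z') :
    br x s ∈ R (r + r') (z + z') :=
  der_mem _ hx fun _ hm i _ => R_mul (R_sub hm i) (by
    rw [dxi_eq]; exact R_dxi i (R_dx (R_var hs)))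

lemma f_eq (n : ℕ) : f n = ((n.factorial : ℂ)⁻¹) • mono (n • e 0) := by rw [mono_nsmul]; rfl

lemma R_f (n : ℕ) : f n ∈ R n (3 * n) := by
  rw [f_eq]
  exact Submodule.smul_mem _ _ (mono_mem (by constructor <;> simp))

/-! ### regular elements -/

def FS (p : ℤ) : Set E := {m | p ≤ m 1}

noncomputable def F (p : ℤ) : Submodule ℂ B := sp (FS p)

/-- `ν t`: regular at `u = u_1 = 0`, vanishing to weighted order `t` -/
def NS (t : ℤ) : Set E := {m | 0 ≤ m 0 ∧ 0 ≤ m 1 ∧ t ≤ 2 * m 0 + m 1}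

noncomputable def Nu (t : ℤ) : Submodule ℂ B := sp (NS t)

noncomputable def A : Submodule ℂ B := Nu 0

noncomputable def I : Submodule ℂ B := Nu 1

lemma Nu_le {t t' : ℤ} {x : B} (h : x ∈ Nu t) (ht : t' ≤ t) : x ∈ Nu t' :=
  sp_mono (S := NS t) (T := NS t') (fun _ hm => ⟨hm.1, hm.2.1, ht.trans hm.2.2⟩) h

lemma I_A {x : B} (h : x ∈ I) : x ∈ A := Nu_le h (by norm_num)

lemma Nu_A {t : ℤ} {x : B} (h : x ∈ Nu t) : x ∈ A :=
  sp_mono (S := NS t) (T := NS 0)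
    (fun _ hm => ⟨hm.1, hm.2.1, by have := hm.1; have := hm.2.1; omega⟩) h

lemma Nu_mul {t t' : ℤ} {x y : B} (hx : x ∈ Nu t) (hy : y ∈ Nu t') : x * y ∈ Nu (t + t') :=
  mul_mem hx hy fun _ hm _ hn => by
    obtain ⟨h1, h2, h3⟩ := hm
    obtain ⟨h4, h5, h6⟩ := hn
    refine ⟨?_, ?_, ?_⟩ <;> simp only [Finsupp.add_apply] <;> omega

lemma A_mul {x y : B} (hx : x ∈ A) (hy : y ∈ A) : x * y ∈ A := Nu_A (Nu_mul hx hy)

lemma I_mul {x y : B} (hx : x ∈ I) (hy : y ∈ A) : x * y ∈ I := Nu_le (Nu_mul hx hy) (by norm_num)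

lemma mul_I {x y : B} (hx : x ∈ A) (hy : y ∈ I) : x * y ∈ I := Nu_le (Nu_mul hx hy) (by norm_num)

lemma A_sub {t : ℤ} {m : E} (hm : m ∈ NS t) {i : ℕ} (hi : m i ≠ 0) : mono (m - e i) ∈ A :=
  mono_mem (by
    obtain ⟨h1, h2, h3⟩ := hm
    refine ⟨?_, ?_, ?_⟩ <;> simp only [Finsupp.sub_apply, e_apply] <;> split_ifs <;>
      subst_vars <;> omega)

lemma Nu_dx {t : ℤ} {x : B} (hx : x ∈ Nu t) : dx x ∈ Nu (t - 1) :=
  der_mem _ hx fun _ hm j hj => by
    rw [mono_U]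
    refine mono_mem ?_
    obtain ⟨h1, h2, h3⟩ := hm
    refine ⟨?_, ?_, ?_⟩ <;> simp only [Finsupp.add_apply, Finsupp.sub_apply, e_apply] <;>
      split_ifs <;> subst_vars <;> omega

lemma Nu_dxi (j : ℕ) {t : ℤ} {x : B} (hx : x ∈ Nu t) : dxi j x ∈ Nu (t - j) := by
  induction j with
  | zero => simpa using hx
  | succ j ih => rw [dxi_succ]; exact Nu_le (Nu_dx ih) (by push_cast; omega)

lemma ClA : Cl A where
  mul := fun _ hx _ hy => A_mul hx hy
  dx := fun _ hx => Nu_A (Nu_dx hx)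
  pd := fun i _ hx => der_mem _ hx fun _ hm j hj => by
    split_ifs with h
    · rw [mul_one]; exact A_sub hm hj
    · simp

lemma A_U (i : ℕ) : U i ∈ A := mono_mem (by
  refine ⟨?_, ?_, ?_⟩ <;> simp only [e_apply] <;> split_ifs <;> omega)

lemma A_V2 : V 2 ∈ A := mono_mem (by refine ⟨?_, ?_, ?_⟩ <;> simp)

lemma A_one : (1 : B) ∈ A := mono_mem (m := 0) (by refine ⟨?_, ?_, ?_⟩ <;> simp)

lemma A_pow {x : B} (hx : x ∈ A) (j : ℕ) : x ^ j ∈ A := by
  induction j with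
  | zero => simpa using A_one
  | succ j ih => rw [pow_succ]; exact A_mul ih hx

lemma Nu_f (n : ℕ) : f n ∈ Nu (2 * n) := by
  rw [f_eq]
  exact Submodule.smul_mem _ _ (mono_mem (by refine ⟨?_, ?_, ?_⟩ <;> simp))

lemma A_D (d : ℕ) {x : B} (hx : x ∈ A) : D d x ∈ A := ClA.ev (ClA.dx _ (Nu_A (Nu_f _))) hx

lemma D_U_I {d i : ℕ} (h : i ≤ 2 * d) : D d (U i) ∈ I := by
  rw [D_U]; exact Nu_le (Nu_dxi _ (Nu_f _)) (by push_cast; omega)

lemma I_D {d : ℕ} (hd : 1 ≤ d) {x : B} (hx : x ∈ I) : D d x ∈ I :=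
  der_mem _ hx fun m hm i hi => by
    rw [← ev_U]
    change _ * D d (U i) ∈ I
    by_cases h : i ≤ 2
    · exact mul_I (A_sub hm hi) (D_U_I (by omega))
    · refine I_mul (mono_mem ?_) (A_D d (A_U i))
      obtain ⟨h1, h2, h3⟩ := hm
      refine ⟨?_, ?_, ?_⟩ <;> simp only [Finsupp.sub_apply, e_apply] <;> split_ifs <;> omega

lemma wt_nonneg {w : ℕ → ℤ} {m : E} (h : ∀ i, 0 ≤ m i * w i) : 0 ≤ wt w m := by
  rw [wt_eq w m _ subset_rfl]
  exact Finset.sum_nonneg fun i _ => h i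

lemma wt_lin (a b : ℤ) (c0 c1 c2 : ℤ) (m : E) :
    wt (fun i => a * i + b + (if i = 0 then c0 else 0) + (if i = 1 then c1 else 0) +
      (if i = 2 then c2 else 0)) m = a * K m + b * N m + c0 * m 0 + c1 * m 1 + c2 * m 2 := by
  induction m using Finsupp.induction_linear with
  | zero => simp
  | add f g hf hg => simp only [map_add, hf, hg, Finsupp.add_apply]; ring
  | single i z =>
    simp only [K, N, wt, Finsupp.liftAddHom_apply_single, AddMonoidHom.coe_mulRight,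
      Finsupp.single_apply]
    split_ifs <;> first | omega | ring

/-- excess is nonnegative -/
lemma excess {m : E} (hm : Ok m) : 0 ≤ K m - 2 * N m + 2 * m 0 + m 1 := by
  have h := wt_nonneg (w := fun i => 1 * i + (-2) + (if i = 0 then 2 else 0) +
    (if i = 1 then 1 else 0) + (if i = 2 then 0 else 0)) (m := m) (fun i => by
      by_cases h0 : i = 0
      · simp [h0]
      by_cases h1 : i = 1
      · simp [h1]
      by_cases h2 : i = 2
      · simp [h2]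
      refine mul_nonneg (hm i h1 h2) ?_
      simp [h0, h1]; omega)
  rw [wt_lin] at h
  linarith

/-- lower bound for the exponent of `u_2` -/
lemma u2_bound {m : E} (hm : Ok m) : 3 * N m - K m - 3 * m 0 - 2 * m 1 ≤ m 2 := by
  have h := wt_nonneg (w := fun i => 1 * i + (-3) + (if i = 0 then 3 else 0) +
    (if i = 1 then 2 else 0) + (if i = 2 then 1 else 0)) (m := m) (fun i => by
      by_cases h0 : i = 0
      · simp [h0]
      by_cases h1 : i = 1
      · simp [h1]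
      by_cases h2 : i = 2
      · simp [h2]
      refine mul_nonneg (hm i h1 h2) ?_
      simp [h0, h1, h2]; omega)
  rw [wt_lin] at h
  linarith

lemma I_of_neg {k n : ℤ} (h : k < 2 * n) {x : B} (hA : x ∈ A) (hx : x ∈ H k n) : x ∈ I :=
  sp_mono (fun m hm => by
    obtain ⟨⟨h1, h2, h3⟩, h4, h5, h6⟩ := hm
    have := excess h4
    exact ⟨h1, h2, by omega⟩) (mem_sp_inter hA hx)

end H979Z.DL
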