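import Pool.Agent.H979Z.DL.Step
import Pool.Agent.H979Z.DL.Defs

/-! The first Hamiltonian is in standard form. -/

namespace H979Z.DL

open Finset

noncomputable def a1 (i : ℕ) : B := dxi i (U 0 * U 1) - U 0 * U (i + 1)

lemma a1_succ (i : ℕ) : a1 (i + 1) = dx (a1 i) + U 1 * U (i + 1) := by
  rw [a1, a1, dxi_succ, map_sub, D_mul, dx_U, dx_U]; ring

lemma a1_zero : a1 0 = 0 := by simp [a1]

lemma R_U1 : U 1 ∈ R 0 2 := mono_mem (by constructor <;> simp)

lemma R_U (i : ℕ) : U (i + 2) ∈ R 0 0 := mono_mem (by constructor <;> simp)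

lemma a1_one : a1 1 = U 1 * U 1 := by rw [a1_succ, a1_zero]; simp

lemma a1_R (i : ℕ) : a1 (i + 2) ∈ R 0 2 := by
  induction i with
  | zero =>
    have h := R_mul R_U1 (R_U 0)
    have : a1 (0 + 2) = U 1 * U 2 + U 1 * U 2 + U 1 * U 2 := by
      rw [a1_succ, a1_one, D_mul, dx_U]; ring
    rw [this]
    exact Submodule.add_mem _ (Submodule.add_mem _ h h) h
  | succ i ih =>
    rw [show i + 1 + 2 = (i + 2) + 1 by ring, a1_succ]
    exact Submodule.add_mem _ (R_dx ih) (R_le (R_mul R_U1 (R_U (i + 1))) (by norm_num) (by norm_num))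

lemma D1_eq (s : B) : D 1 s = dx (U 0 * s) + (der a1 s - U 1 * s) := by
  have : D 1 = U 0 • dx + der a1 := der_ext fun i => by
    rw [D_U, Derivation.add_apply, Derivation.smul_apply, dx_U, der_U, a1, dxi_succ', dx_f, f_one,
      smul_eq_mul]
    ring
  rw [this, D_mul, dx_U, Derivation.add_apply, Derivation.smul_apply, smul_eq_mul]; ring

lemma D1_R {s : B} (hs : s ∈ R 0 (-2)) : der a1 s - U 1 * s ∈ R 0 0 := by
  refine Submodule.sub_mem _ (der_mem _ hs fun m hm i _ => ?_) (by simpa using R_mul R_U1 hs)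
  match i with
  | 0 => simp [a1_zero]
  | 1 =>
    have h1 : mono (m - e 1) ∈ R 0 (-4) := mono_mem (by
      obtain ⟨h1, h2⟩ := hm
      constructor <;> simp <;> omega)
    rw [a1_one]
    simpa using R_mul h1 (R_mul R_U1 R_U1)
  | i + 2 => simpa using R_mul (R_sub hm (i + 2)) (a1_R i)

lemma G1_std {S : ℕ → B} (hS : ∀ j, Good j (S j)) (hA : ∀ i, G S (f 3) i ∈ AI) (i : ℕ) :
    ∃ a ∈ sp (TS (18 * (i + 1 : ℕ)) (3 + 6 * (i + 1 : ℕ)) 0 ∩ NS 0), G S (f 3) (i + 1) - a ∈ Im := by
  induction i using Nat.strong_induction_on with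
  | _ i ih =>
    have h1 : G S (f 3) (i + 1) ∈ sp (TS (18 * (i + 1 : ℕ)) (3 + 6 * (i + 1 : ℕ)) 0) ⊔ Im := by
      rw [G_succ]
      refine Submodule.smul_mem _ _ (Submodule.sum_mem _ fun p hp => ?_)
      replace hp := mem_ad hp
      have hg := hS p.1
      rcases h2 : p.2 with _ | j
      · rw [G_zero]
        have h3 := br_f_left 1 (S p.1)
        have h4 : der a1 (S p.1) - U 1 * S p.1 ∈
            sp (TS (18 * (i + 1 : ℕ)) (3 + 6 * (i + 1 : ℕ)) 0) := by
          refine mem_sp_inter ?_ (R_le (D1_R hg.R) le_rfl (by norm_num))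
          rw [← sub_eq_iff_eq_add'.mpr (D1_eq (S p.1))]
          exact Submodule.sub_mem _ (H_cast (H_D 1 hg.H) (by push_cast; omega) (by push_cast; omega))
            (H_cast (H_dx (H_mul (H_U 0) hg.H)) (by push_cast; omega) (by push_cast; omega))
        have := Submodule.sub_mem _ (Submodule.mem_sup_right (S := sp
          (TS (18 * (i + 1 : ℕ)) (3 + 6 * (i + 1 : ℕ)) 0))
          (Submodule.sub_mem _ h3 (dx_mem_Im (U 0 * S p.1)))) (Submodule.mem_sup_left h4)
        convert this using 1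
        rw [D1_eq]; ring
      · obtain ⟨a, ha, h3⟩ := ih j (by omega)
        have h4 : br a (S p.1) ∈ sp (TS (18 * (i + 1 : ℕ)) (3 + 6 * (i + 1 : ℕ)) 0) := by
          have ha' := sp_mono Set.inter_subset_left ha
          refine mem_sp_inter (H_cast (H_br (sp_mono Set.inter_subset_left ha') hg.H) ?_ ?_)
            (R_le (R_br (sp_mono Set.inter_subset_right ha') hg.R) (by omega) (by omega))
          · push_cast; omega
          · push_cast; omega
        have := Submodule.add_mem _ (Submodule.mem_sup_left h4)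
          (Submodule.mem_sup_right (br_Im_left h3 (S p.1)))
        convert this using 1
        rw [br_sub_left]; ring
    obtain ⟨y, hy, z, hz, h2⟩ := Submodule.mem_sup.mp h1
    obtain ⟨a, ha, h3⟩ := red_reg hy (by
      have := Submodule.sub_mem _ (hA (i + 1)) (Im_AI hz)
      rwa [← h2, add_sub_cancel_right] at this)
    refine ⟨a, ha, ?_⟩
    have := Submodule.add_mem _ h3 hz
    convert this using 1
    rw [← h2]; ring

lemma G1_one {S : ℕ → B} (h0 : S 0 = W * ρ0) : G S (f 3) 1 - U 2 ^ 9 ∈ Im := by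
  have h1 : G S (f 3) 1 = br (f 3) (W * ρ0) := by
    rw [G_succ]; simp [G_zero, h0]
  have h2 : der a1 (W * U 2 ^ 8) - U 1 * (W * U 2 ^ 8) = (25 : ℂ) • U 2 ^ 9 := by
    have e1 : der a1 (U 1) = U 1 * U 1 := by rw [der_U, a1_one]
    have e2 : der a1 (U 2) = 3 * (U 1 * U 2) := by
      rw [der_U, a1_succ, a1_one, D_mul, dx_U]; ring
    have e3 : (25 : ℂ) • U 2 ^ 9 = 25 * U 2 ^ 9 := by
      rw [Algebra.smul_def]; rfl
    rw [W, D_mul, D_mul, D_V, Derivation.leibniz_pow, e1, e2, e3, smul_eq_mul, nsmul_eq_mul]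
    push_cast
    linear_combination (U 2 ^ 9 * (25 - U 1 * V 1)) * U_mul_V 1
  have h3 : D 1 (W * ρ0) = dx (U 0 * (W * ρ0)) - U 2 ^ 9 := by
    rw [D1_eq, ρ0, mul_smul_comm, Derivation.map_smul, mul_smul_comm _ (U 1), ← smul_sub, h2,
      smul_smul]
    norm_num [sub_eq_add_neg]
  have := Submodule.sub_mem _ (br_f_left 1 (W * ρ0)) (dx_mem_Im (U 0 * (W * ρ0)))
  convert this using 1
  rw [h1, h3]; ring

/-! ### normal form -/

noncomputable def UP {k : ℕ} (l : Nat.Partition k) : B := (l.parts.map U).prod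

def PS (k : ℕ) (t : ℕ) : Set E :=
  {m | (∀ i, 0 ≤ m i) ∧ m 0 = 0 ∧ m 1 = 0 ∧ K m = k ∧ ∀ i, t < i → m i = 0}

open Classical in
noncomputable def NF (k : ℕ) : Submodule ℂ B :=
  Submodule.span ℂ (Set.range fun l : Nat.Partition k => if H979Z.Tau.IsP l then UP l else 0)

noncomputable def nat (m : E) : ℕ →₀ ℕ := m.mapRange Int.toNat rfl

lemma prod_nat {m : E} (h : ∀ i, 0 ≤ m i) : ∏ i ∈ (nat m).support, U i ^ nat m i = mono m := by
  have h1 : ∀ s : Finset ℕ, ∏ i ∈ s, U i ^ nat m i = mono (∑ i ∈ s, nat m i • e i) := by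
    intro s
    induction s using Finset.induction_on with
    | empty => simp [mono_zero]
    | insert i s hi ih => rw [Finset.prod_insert hi, Finset.sum_insert hi, mono_add, ih,
        mono_nsmul, U]
  rw [h1]
  congr 1
  ext j
  rw [Finsupp.finsetSum_apply, Finset.sum_eq_single j]
  · simp [nat, h j]
  · intro i _ hi; simp [hi]
  · intro hj
    have := Finsupp.notMem_support_iff.mp hj
    simp [this]

lemma sum_nat {m : E} (h : ∀ i, 0 ≤ m i) : ((∑ i ∈ (nat m).support, nat m i * i : ℕ) : ℤ) = K m := by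
  have hs : m.support ⊆ (nat m).support := fun i hi => by
    rw [Finsupp.mem_support_iff] at hi ⊢
    have := h i
    simp only [nat, Finsupp.mapRange_apply]; omega
  rw [K, wt_eq _ m _ hs]
  push_cast
  refine Finset.sum_congr rfl fun i _ => ?_
  simp [nat, h i]

lemma mono_NF {k t : ℕ} {m : E} (hm : m ∈ PS k t) (ht : 2 ≤ m t) : mono m ∈ NF k := by
  classical
  obtain ⟨h1, h2, h3, h4, h5⟩ := hm
  have hc : ∀ i, (Finsupp.toMultiset (nat m)).count i = (m i).toNat := fun i => by
    rw [Finsupp.count_toMultiset]; rfl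
  have hmem : ∀ i ∈ Finsupp.toMultiset (nat m), m i ≠ 0 := fun i hi h => by
    have := Multiset.count_pos.mpr hi
    rw [hc, h] at this; simp at this
  have h2' : ∀ i ∈ Finsupp.toMultiset (nat m), 2 ≤ i := fun i hi => by
    have := hmem i hi
    by_contra hc
    interval_cases i <;> contradiction
  let l : Nat.Partition k :=
    { parts := Finsupp.toMultiset (nat m)
      parts_pos := fun {i} hi => by have := h2' i hi; omega
      parts_sum := by
        have := sum_nat h1
        rw [h4] at this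
        rw [Finsupp.toMultiset_apply, Finsupp.sum, Multiset.sum_sum]
        simpa [Multiset.sum_nsmul] using Int.ofNat.inj this }
  have hl : H979Z.Tau.IsP l := by
    have h6 : 2 ≤ l.parts.count t := by change 2 ≤ (Finsupp.toMultiset (nat m)).count t; rw [hc]; omega
    refine ⟨h6.trans (Multiset.count_le_card _ _), h2', t, fun i hi => ?_, h6⟩
    by_contra hc
    exact hmem i hi (h5 i (by omega))
  refine Submodule.subset_span ⟨l, ?_⟩
  simp only [if_pos hl]
  rw [← prod_nat h1, UP]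
  change ((Finsupp.toMultiset (nat m)).map U).prod = _
  rw [Finsupp.toMultiset_map, Finsupp.prod_toMultiset, Finsupp.prod_mapDomain_index] 
  · rfl
  · simp
  · intro b x y; rw [pow_add]

lemma K_small {m : E} (h : ∀ i, 2 < i → m i = 0) : K m = m 1 + 2 * m 2 := by
  rw [K, wt_eq _ m (range 3) (supp_of_Bd fun i hi => h i (by omega))]
  simp [Finset.sum_range_succ]; ring

/-- polynomial elements -/
def PL : Set E := {m | ∀ i, 0 ≤ m i}

noncomputable def ImP : Submodule ℂ B := (sp PL).map dx.toLinearMap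

lemma nf_aux {k : ℕ} (hk : 4 ≤ k) (t : ℕ) : sp (PS k (t + 2)) ≤ NF k ⊔ ImP := by
  induction t with
  | zero =>
    refine sp_le fun m hm => Submodule.mem_sup_left (mono_NF hm ?_)
    obtain ⟨h1, h2, h3, h4, h5⟩ := hm
    rw [K_small h5] at h4
    change 2 ≤ m 2
    omega
  | succ t ih =>
    refine sp_le fun m hm => ?_
    by_cases hA : 2 ≤ m (t + 1 + 2)
    · exact Submodule.mem_sup_left (mono_NF hm hA)
    obtain ⟨h1, h2, h3, h4, h5⟩ := hm
    by_cases hB : m (t + 1 + 2) = 0
    · refine ih (mono_mem ⟨h1, h2, h3, h4, fun i hi => ?_⟩)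
      by_cases h : i = t + 1 + 2
      · rw [h, hB]
      · exact h5 i (by omega)
    have hC : m (t + 3) = 1 := by have := h1 (t + 1 + 2); change m (t + 1 + 2) = 1; omega
    have hw := dx_mono_split (t + 2) (m - e (t + 3) + e (t + 2))
    have e1 : m - e (t + 3) + e (t + 2) - e (t + 2) + e (t + 2 + 1) = m := by abel
    rw [e1] at hw
    have hc : (((m - e (t + 3) + e (t + 2)) (t + 2) : ℤ) : ℂ) ≠ 0 :=
      Int.cast_ne_zero.mpr (by have := h1 (t + 2); simp; omega)
    rw [← Submodule.smul_mem_iff _ hc]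
    have h7 : dxo (t + 2) (mono (m - e (t + 3) + e (t + 2))) ∈ NF k ⊔ ImP := by
      refine ih (dxo_mem (t + 2) (mono_mem (S := {m - e (t + 3) + e (t + 2)}) rfl) ?_)
      rintro _ rfl i hi hi0
      simp only [Finsupp.add_apply, Finsupp.sub_apply, e_apply] at hi0
      have hi1 : i < t + 2 := by
        by_contra hc
        have := h5 i
        split_ifs at hi0 <;> subst_vars <;> omega
      have hi2 : m i ≠ 0 := by split_ifs at hi0 <;> omega
      have hi3 : 2 ≤ i := by
        by_contra hc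
        interval_cases i <;> contradiction
      refine ⟨fun j => ?_, ?_, ?_, ?_, fun j hj => ?_⟩
      · have := h1 j
        simp only [Finsupp.add_apply, Finsupp.sub_apply, e_apply]
        split_ifs <;> subst_vars <;> omega
      · simp only [Finsupp.add_apply, Finsupp.sub_apply, e_apply]
        split_ifs <;> first | omega | contradiction
      · simp only [Finsupp.add_apply, Finsupp.sub_apply, e_apply]
        split_ifs <;> first | omega | contradiction
      · simp [h4]; ring
      · have := h5 j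
        simp only [Finsupp.add_apply, Finsupp.sub_apply, e_apply]
        split_ifs <;> subst_vars <;> omega
    have h8 : dx (mono (m - e (t + 3) + e (t + 2))) ∈ NF k ⊔ ImP :=
      Submodule.mem_sup_right ⟨_, mono_mem (fun j => by
        have := h1 j
        simp only [Finsupp.add_apply, Finsupp.sub_apply, e_apply]
        split_ifs <;> subst_vars <;> omega), rfl⟩
    have := Submodule.sub_mem _ h8 h7
    rwa [hw, add_sub_cancel_left] at this

lemma PL_of {k n r : ℤ} (h : k + 3 * r ≤ 3 * n) : TS k n r ∩ NS 0 ⊆ PL := fun m hm i => by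
  obtain ⟨⟨⟨h1, h2, h3⟩, h4, h5⟩, h6, h7, _⟩ := hm
  have := u2_bound h1
  by_cases e1 : i = 1
  · rw [e1]; exact h7
  by_cases e2 : i = 2
  · rw [e2]; omega
  exact h1 i e1 e2

open Classical in
lemma nf {k : ℕ} (hk : 4 ≤ k) {n : ℤ} (hn : (k : ℤ) ≤ 3 * n) {x : B} (hx : x ∈ sp (TS k n 0 ∩ NS 0)) :
    ∃ c : Nat.Partition k → ℂ,
      x - ∑ l ∈ univ.filter (fun l : Nat.Partition k => H979Z.Tau.IsP l), c l • UP l ∈ ImP := by
  obtain ⟨M, hM⟩ := exists_Bd x
  have h1 : x ∈ sp (PS k (M + 2)) := sp_mono (fun m hm => by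
    have h0 := PL_of (by omega) hm.1
    obtain ⟨⟨⟨⟨h1, h2, h3⟩, h4, h5⟩, h6, h7, _⟩, h8⟩ := hm
    exact ⟨h0, by omega, by omega, h2, fun i hi => h8 i (by omega)⟩) (mem_sp_inter hx hM)
  obtain ⟨y, hy, z, hz, rfl⟩ := Submodule.mem_sup.mp (nf_aux hk M h1)
  obtain ⟨c, rfl⟩ := (Submodule.mem_span_range_iff_exists_fun ℂ).mp hy
  refine ⟨c, ?_⟩
  rw [Finset.sum_filter]
  simpa using hz

lemma ClP : Cl (sp PL) where
  mul := fun _ hx _ hy => mul_mem hx hy fun m hm n hn i => by
    rw [Finsupp.add_apply]; exact add_nonneg (hm i) (hn i)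
  dx := fun _ hx => der_mem _ hx fun m hm j hj => by
    rw [mono_U]
    refine mono_mem fun i => ?_
    have := hm i
    simp only [Finsupp.add_apply, Finsupp.sub_apply, e_apply]
    split_ifs <;> subst_vars <;> omega
  pd := fun i _ hx => der_mem _ hx fun m hm j hj => by
    split_ifs with h
    · rw [mul_one]
      refine mono_mem fun i => ?_
      have := hm i
      simp only [Finsupp.sub_apply, e_apply]
      split_ifs <;> subst_vars <;> omega
    · simp

lemma PL_U (i : ℕ) : U i ∈ sp PL := mono_mem fun j => by rw [e_apply]; split_ifs <;> simp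

lemma euler {k n : ℤ} {x : B} (hx : x ∈ H k n) : ev (U 0) x = (n : ℂ) • x := by
  have := lin_eq_of (ev (U 0)).toLinearMap ((n : ℂ) • LinearMap.id) hx (fun m hm => by
    change ev (U 0) (mono m) = (n : ℂ) • mono m
    rw [ev, der_mono_eq _ m _ subset_rfl, ← hm.2.2, N, wt_eq _ m _ subset_rfl]
    push_cast
    rw [Finset.sum_smul]
    refine Finset.sum_congr rfl fun i _ => ?_
    rw [dxi_U, mono_U, zero_add, sub_add_cancel, mul_one])
  exact this

lemma exactP {k n : ℤ} (hn : n ≠ 0) {x : B} (hP : x ∈ sp PL) (hH : x ∈ H k n) (hx : x ∈ Im) :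
    x ∈ ImP := by
  have := ev_var ClP hP (PL_U 0)
  rw [var_Im hx, euler hH, zero_mul, sub_zero] at this
  exact (Submodule.smul_mem_iff _ (Int.cast_ne_zero.mpr hn)).mp this

open Classical in
/-- Everything we need on the Laurent side. -/
theorem exists_g : ∃ (g : ℕ → ℕ → B) (c : (k : ℕ) → Nat.Partition k → ℂ),
    (∀ d m, g d m ∈ sp PL ∧ g d m ∈ H (18 * m) (d + 1 + 6 * m)) ∧
    (∀ d, g d 0 = f (d + 1)) ∧ (∀ m, g 0 (m + 1) = 0) ∧
    (∀ d m, var (g (d + 1) m) = g d m) ∧
    (∀ a b m, ∑ p ∈ antidiagonal m, ev (dx (g a p.1)) (g b p.2) =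
      ∑ p ∈ antidiagonal m, ev (dx (g b p.1)) (g a p.2)) ∧
    (g 2 1 - U 2 ^ 9 ∈ ImP) ∧
    (∀ m, g 2 (m + 1) - ∑ l ∈ univ.filter (fun l : Nat.Partition (18 * (m + 1)) =>
      H979Z.Tau.IsP l), c _ l • UP l ∈ ImP) := by
  obtain ⟨S, hS, hA, h0⟩ := exists_S
  have hmem : ∀ d m, var (G S (f (d + 2)) m) ∈ sp PL ∧
      var (G S (f (d + 2)) m) ∈ H (18 * m) (d + 1 + 6 * m) := fun d m => by
    obtain ⟨a, ha, h1⟩ := red_reg (G_TS (d + 2) m fun j _ => hS j) (hA d m)
    rw [var_congr h1]
    exact ⟨ClP.var (sp_mono (PL_of (by push_cast; omega)) ha),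
      H_cast (H_var (sp_mono (Set.inter_subset_left.trans Set.inter_subset_left) ha)) rfl
        (by push_cast; ring)⟩
  have h2 : ∀ m, var (G S (f (2 + 2)) m) - G S (f 3) m ∈ Im := fun m => by
    have := Submodule.neg_mem _ (F2 1 (G S (f (2 + 2)) m))
    rw [ev_one, pd0_G _ _ fun j _ => (hS j).pd0, pd0_f] at this
    simpa using this
  have h3 : ∀ k : ℕ, ∃ c : Nat.Partition k → ℂ, ∀ m, k = 18 * (m + 1) →
      var (G S (f (2 + 2)) (m + 1)) - ∑ l ∈ univ.filter (fun l : Nat.Partition k =>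
        H979Z.Tau.IsP l), c l • UP l ∈ ImP := fun k => by
    by_cases hk : ∃ m, k = 18 * (m + 1)
    · obtain ⟨m, rfl⟩ := hk
      obtain ⟨a, ha, h4⟩ := G1_std hS (hA 1) m
      obtain ⟨c, hc⟩ := nf (k := 18 * (m + 1)) (n := 3 + 6 * (m + 1 : ℕ)) (by omega)
        (by push_cast; omega) (x := a) (by simpa using ha)
      refine ⟨c, fun m' hm' => ?_⟩
      obtain rfl : m = m' := by omega
      have h5 : var (G S (f (2 + 2)) (m + 1)) - a ∈ ImP := by
        refine exactP (k := 18 * (m + 1 : ℕ)) (n := 3 + 6 * (m + 1 : ℕ)) (by omega)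
          (Submodule.sub_mem _ (hmem 2 _).1 (sp_mono (PL_of (by push_cast; omega)) ha))
          (Submodule.sub_mem _ (H_cast (hmem 2 _).2 rfl (by push_cast; ring))
            (sp_mono (Set.inter_subset_left.trans Set.inter_subset_left) ha)) ?_
        simpa using Submodule.add_mem _ (h2 (m + 1)) h4
      simpa using Submodule.add_mem _ h5 hc
    · exact ⟨0, fun m hm => absurd ⟨m, hm⟩ hk⟩
  choose c hc using h3
  refine ⟨fun d m => var (G S (f (d + 2)) m), c, hmem, fun d => by simp only [G_zero, var_f],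
    fun m => var_Im (G_f2 S m), fun d m => ?_, fun a b m => ?_, ?_, fun m => hc _ m rfl⟩
  · simp only
    rw [var_var, pd0_G _ _ fun j _ => (hS j).pd0, pd0_f]
  · have := var_Im (CC_Im S (br_f_f b a) m)
    rw [CC, map_sum] at this
    simp only [var_br, Finset.sum_sub_distrib, sub_eq_zero, ham] at this
    rw [← this, ← Finset.Nat.sum_antidiagonal_swap]
    rfl
  · have hU : U 2 ^ 9 ∈ sp PL := by
      rw [U, ← mono_nsmul]
      exact mono_mem fun i => by simp; split_ifs <;> simp
    refine exactP (k := 18) (n := 9) (by norm_num) (Submodule.sub_mem _ (hmem 2 1).1 hU)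
      (Submodule.sub_mem _ (H_cast (hmem 2 _).2 (by norm_num) (by norm_num))
        (H_cast (H_pow (H_U 2) 9) (by norm_num) (by norm_num))) ?_
    simpa using Submodule.add_mem _ (h2 1) (G1_one h0)

end H979Z.DL
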