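import Pool.Agent.H979Z.DL.Poin

/-! The inductive construction of the generating functionals. -/

namespace H979Z.DL

open Finset

def Good (j : ℕ) (s : B) : Prop :=
  ∃ ρ ∈ sp (HS (18 * j + 16) (6 * j + 8) ∩ Z0), s = W * ρ

lemma H_W : W ∈ H 1 0 := H_cast (H_mul H_V1 (H_U 2)) (by norm_num) (by norm_num)

lemma Good.H {j : ℕ} {s : B} (h : Good j s) : s ∈ H (18 * j + 17) (6 * j + 8) := by
  obtain ⟨ρ, hρ, rfl⟩ := h
  exact H_cast (H_mul H_W (sp_mono Set.inter_subset_left hρ)) (by ring) (by ring)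

lemma Good.R {j : ℕ} {s : B} (h : Good j s) : s ∈ R 0 (-2) := by
  obtain ⟨ρ, hρ, rfl⟩ := h
  have h1 : W ∈ H979Z.DL.R 0 (-2) := by
    rw [W_eq]; exact mono_mem (by constructor <;> simp)
  have h2 : ρ ∈ H979Z.DL.R 0 0 := sp_mono (T := RS 0 0) (fun m hm => by
    obtain ⟨_, h3, h4⟩ := hm
    constructor <;> omega) hρ
  simpa using R_mul h1 h2

lemma Good.pd0 {j : ℕ} {s : B} (h : Good j s) : pd 0 s = 0 := by
  obtain ⟨ρ, hρ, rfl⟩ := h
  have : pd 0 ρ = 0 := lin_mem (pd 0).toLinearMap (W := ⊥) hρ fun m hm => by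
    change pd 0 (mono m) ∈ (⊥ : Submodule ℂ B)
    rw [pd_mono, hm.2.1]; simp
  rw [D_mul, pd0_W, this]; simp

lemma Good_zero (j : ℕ) : Good j 0 := ⟨0, Submodule.zero_mem _, by simp⟩

lemma Z0_A {k n : ℤ} {ρ : B} (h : ρ ∈ sp (HS k n ∩ Z0)) : ρ ∈ A :=
  sp_mono (T := NS 0) (fun m hm => by
    obtain ⟨_, h3, h4⟩ := hm
    exact ⟨by omega, by omega, by omega⟩) h

lemma G_TS {S : ℕ → B} (n i : ℕ) (h : ∀ j < i, Good j (S j)) :
    G S (f n) i ∈ sp (TS (18 * i) (n + 6 * i) n) := by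
  induction i using Nat.strong_induction_on with
  | _ i ih =>
    cases i with
    | zero =>
      rw [G_zero]
      exact mem_sp_inter (H_cast (H_f n) (by simp) (by simp)) (R_f n)
    | succ i =>
      rw [G_succ]
      refine Submodule.smul_mem _ _ (Submodule.sum_mem _ fun p hp => ?_)
      replace hp := mem_ad hp
      have h1 := ih p.2 (by omega) fun j hj => h j (by omega)
      have h2 := h p.1 (by omega)
      refine mem_sp_inter (H_cast (H_br (sp_mono Set.inter_subset_left h1) h2.H) ?_ ?_)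
        (R_le (R_br (sp_mono Set.inter_subset_right h1) h2.R) (by omega) (by omega))
      · push_cast; omega
      · push_cast; omega

lemma G_update (S : ℕ → B) (x s : B) (m : ℕ) :
    G (Function.update S m s) x (m + 1) =
      G (Function.update S m 0) x (m + 1) + (((m + 1 : ℕ) : ℂ)⁻¹) • br x s := by
  rw [G_succ, G_succ, ← smul_add]
  refine congrArg _ ?_
  rw [← sub_eq_iff_eq_add', ← Finset.sum_sub_distrib, Finset.sum_eq_single (m, 0)]
  · simp [G_zero, br_zero_right]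
  · intro p hp hne
    replace hp := mem_ad hp
    have h1 : p.1 ≠ m := fun h => hne (Prod.ext h (by omega))
    rw [Function.update_of_ne h1, Function.update_of_ne h1,
      G_congr (S := Function.update S m s) (S' := Function.update S m 0) x p.2 fun j hj => by
        rw [Function.update_of_ne (by omega), Function.update_of_ne (by omega)], sub_self]
  · simp

lemma good_update {S : ℕ → B} {m : ℕ} (h : ∀ j < m, Good j (S j)) {s : B} (hs : Good m s) :
    ∀ j < m + 1, Good j (Function.update S m s j) := fun j hj => by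
  by_cases h1 : j = m
  · subst h1; simpa using hs
  · rw [Function.update_of_ne h1]; exact h j (by omega)

lemma finish {S : ℕ → B} {m : ℕ} (h : ∀ j < m, Good j (S j)) {ρ : B}
    (hρ : ρ ∈ sp (HS (18 * m + 16) (6 * m + 8) ∩ Z0))
    (hN : ∀ d, 1 ≤ d → G (Function.update S m 0) (f (d + 2)) (m + 1) -
      (((m + 1 : ℕ) : ℂ)⁻¹) • (W * D d ρ) ∈ NN) (d : ℕ) :
    G (Function.update S m (W * ρ)) (f (d + 2)) (m + 1) ∈ AI := by
  induction d with
  | zero => exact Im_AI (G_f2 _ _)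
  | succ d ih =>
    refine fin_step ?_ ?_
    · have h1 := hN (d + 1) (by omega)
      have h2 := Submodule.smul_mem _ (((m + 1 : ℕ) : ℂ)⁻¹)
        (AI_NN (Im_AI (br_f_left (d + 1) (W * ρ))))
      have h3 := Submodule.smul_mem _ (((m + 1 : ℕ) : ℂ)⁻¹) (L1 (d := d + 1) (by omega) (Z0_A hρ))
      have := Submodule.sub_mem _ (Submodule.add_mem _ h1 h2) h3
      convert this using 1
      rw [G_update, smul_add, smul_sub]; ring
    · rw [pd0_G _ _ fun j hj => (good_update h ⟨ρ, hρ, rfl⟩ j hj).pd0, pd0_f]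
      exact ih

lemma br_AI {x y : B} (hx : x ∈ AI) (hy : y ∈ AI) : br x y ∈ AI := by
  obtain ⟨a, ha, h1⟩ := mem_AI.mp hx
  obtain ⟨b, hb, h2⟩ := mem_AI.mp hy
  refine mem_AI.mpr ⟨br a b, ClA.br ha hb, ?_⟩
  rw [br_congr_right x h2, ← br_sub_left]
  exact br_Im_left h1 _

lemma cocycle {S : ℕ → B} {m : ℕ} (h : ∀ d, ∀ i ≤ m, G S (f (d + 2)) i ∈ AI) (d d' : ℕ) :
    D d' (G S (f (d + 2)) (m + 1)) - D d (G S (f (d' + 2)) (m + 1)) ∈ AI := by
  have h1 := CC_Im S (br_f_f d d') (m + 1)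
  rw [CC, Finset.Nat.sum_antidiagonal_succ,
    ← Finset.add_sum_erase _ _ (show (m, 0) ∈ antidiagonal m by simp)] at h1
  simp only [G_zero, br_f] at h1
  have h2 : ∑ p ∈ (antidiagonal m).erase (m, 0),
      br (G S (f (d + 2)) (p.1 + 1)) (G S (f (d' + 2)) p.2) ∈ AI := by
    refine Submodule.sum_mem _ fun p hp => ?_
    obtain ⟨hne, hp⟩ := Finset.mem_erase.mp hp
    replace hp := mem_ad hp
    have h1 : p.1 ≠ m := fun h => hne (Prod.ext h (by omega))
    exact br_AI (h d _ (by omega)) (h d' _ (by omega))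
  have h3 := Im_AI (br_f_left d (G S (f (d' + 2)) (m + 1)))
  have := Submodule.sub_mem _ (Submodule.sub_mem _ (Im_AI h1) h2) h3
  convert this using 1
  ring

lemma step {S : ℕ → B} {m : ℕ} (h : ∀ j < m, Good j (S j))
    (hA : ∀ d, ∀ i ≤ m, G S (f (d + 2)) i ∈ AI) :
    ∃ s, Good m s ∧ ∀ d, G (Function.update S m s) (f (d + 2)) (m + 1) ∈ AI := by
  have hg := good_update h (Good_zero m)
  have hA' : ∀ d, ∀ i ≤ m, G (Function.update S m 0) (f (d + 2)) i ∈ AI := fun d i hi => by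
    rw [G_congr (S' := S) _ i fun j hj => Function.update_of_ne (by omega) _ _]
    exact hA d i hi
  choose a ha θ hθ hr using fun d => red (G_TS (d + 2) (m + 1) hg)
  have haA : ∀ d, a d ∈ A := fun d => sp_mono Set.inter_subset_right (ha d)
  have hθA : ∀ d, θ d ∈ A := fun d => sp_mono (T := NS 0) (fun n hn => by
    obtain ⟨⟨⟨h1, _⟩, _⟩, h2⟩ := hn
    have := h1 0 (by norm_num) (by norm_num)
    change n 1 = 0 at h2
    exact ⟨this, by omega, by omega⟩) (hθ d)
  have hθH : ∀ d : ℕ, θ d ∈ H (18 * m + 17) (6 * m + 8 + d) := fun d =>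
    H_cast (sp_mono (Set.inter_subset_left.trans Set.inter_subset_left) (hθ d))
      (by push_cast; ring) (by push_cast; ring)
  have hr' : ∀ d, G (Function.update S m 0) (f (d + 2)) (m + 1) - W * θ d ∈ AI := fun d => by
    have := Submodule.add_mem _ (Im_AI (hr d)) (A_AI (haA d))
    convert this using 1; ring
  obtain ⟨ρ, hρ, h1⟩ := poincare (18 * m + 17) (6 * m + 8) θ (fun d _ => hθA d) (fun d _ => hθH d)
    (fun d d' hd hd' => by
      refine I_of_NN (Submodule.sub_mem _ (A_D _ (hθA d)) (A_D _ (hθA d'))) ?_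
      have g1 := AI_NN (cocycle hA' d d')
      have g2 := AI_NN (D_AI d' (hr' d))
      have g3 := AI_NN (D_AI d (hr' d'))
      have g4 := L1 hd' (hθA d)
      have g5 := L1 hd (hθA d')
      have := Submodule.add_mem _ (Submodule.sub_mem _ (Submodule.add_mem _
        (Submodule.sub_mem _ g1 g2) g3) g4) g5
      convert this using 1
      rw [map_sub, map_sub]; ring)
  have hρ' : ((m + 1 : ℕ) : ℂ) • ρ ∈ sp (HS (18 * m + 16) (6 * m + 8) ∩ Z0) := by
    refine Submodule.smul_mem _ _ ?_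
    convert hρ using 4; ring
  refine ⟨_, ⟨_, hρ', rfl⟩, finish h hρ' fun d hd => ?_⟩
  have := Submodule.sub_mem _ (AI_NN (hr' d)) (W_I (h1 d hd))
  convert this using 1
  rw [Derivation.map_smul, mul_smul_comm, smul_smul, inv_mul_cancel₀ (cast_ne m), one_smul]; ring

noncomputable def ρ0 : B := (-(25 : ℂ)⁻¹) • U 2 ^ 8

lemma ρ0_mem : ρ0 ∈ sp (HS (18 * (0 : ℕ) + 16) (6 * (0 : ℕ) + 8) ∩ Z0) := by
  refine Submodule.smul_mem _ _ (mem_sp_inter (H_cast (H_pow (H_U 2) 8) (by simp) (by simp)) ?_)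
  rw [U, ← mono_nsmul]
  exact mono_mem (by constructor <;> simp)

lemma base (d : ℕ) : G (Function.update (fun _ => 0) 0 (W * ρ0)) (f (d + 2)) 1 ∈ AI := by
  refine finish (m := 0) (by simp) ρ0_mem (fun d hd => ?_) d
  rw [G_succ]
  simp only [Finset.Nat.antidiagonal_zero, Finset.sum_singleton, Function.update_self,
    br_zero_right, smul_zero, zero_sub]
  refine Submodule.neg_mem _ (Submodule.smul_mem _ _ (W_I ?_))
  rw [ρ0, Derivation.map_smul]
  exact Submodule.smul_mem _ _ (D_pow_I (A_U 2) (D_U_I (by omega)) 8)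

def Inv (m : ℕ) (S : ℕ → B) : Prop :=
  (∀ j < m + 1, Good j (S j)) ∧ (∀ d, ∀ i ≤ m + 1, G S (f (d + 2)) i ∈ AI) ∧ S 0 = W * ρ0

lemma Inv_base : Inv 0 (Function.update (fun _ => 0) 0 (W * ρ0)) := by
  refine ⟨good_update (by simp) ⟨_, ρ0_mem, rfl⟩, fun d i hi => ?_, by simp⟩
  rcases Nat.le_one_iff_eq_zero_or_eq_one.mp hi with rfl | rfl
  · rw [G_zero]; exact A_AI (Nu_A (Nu_f _))
  · exact base d

lemma Inv_step {m : ℕ} {S : ℕ → B} (h : Inv m S) :
    ∃ s, Inv (m + 1) (Function.update S (m + 1) s) := by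
  obtain ⟨s, h1, h2⟩ := step h.1 h.2.1
  refine ⟨s, good_update h.1 h1, fun d i hi => ?_, by simpa using h.2.2⟩
  by_cases hi' : i = m + 1 + 1
  · rw [hi']; exact h2 d
  · rw [G_congr (S' := S) _ i fun j hj => Function.update_of_ne (by omega) _ _]
    exact h.2.1 d i (by omega)

noncomputable def seq : (m : ℕ) → {S : ℕ → B // Inv m S}
  | 0 => ⟨_, Inv_base⟩
  | m + 1 => ⟨_, (Inv_step (seq m).2).choose_spec⟩

lemma seq_stable (j m : ℕ) (h : j ≤ m) : (seq m).1 j = (seq j).1 j := by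
  induction m, h using Nat.le_induction with
  | base => rfl
  | succ m hm ih => rw [seq, ← ih]; exact Function.update_of_ne (by omega) _ _

theorem exists_S : ∃ S : ℕ → B, (∀ j, Good j (S j)) ∧ (∀ d i, G S (f (d + 2)) i ∈ AI) ∧
    S 0 = W * ρ0 := by
  refine ⟨fun j => (seq j).1 j, fun j => (seq j).2.1 j (by omega), fun d i => ?_, (seq 0).2.2.2⟩
  rw [G_congr (S' := (seq i).1) _ i fun j hj => (seq_stable j i hj.le).symm]
  exact (seq i).2.2.1 d i (by omega)

end H979Z.DL
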