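import Pool.Agent.H979Z.DL.Base

/-! Variational calculus and the Poisson bracket. -/

namespace H979Z.DL

open Finset

/-- exponents supported below `N` -/
def Bd (N : ℕ) : Set E := {m | ∀ i, N ≤ i → m i = 0}

lemma exists_Bd (x : B) : ∃ N, x ∈ sp (Bd N) := by
  refine ⟨(x.coeff.support.sup fun m => m.support.sup id) + 1, ?_⟩
  rw [mem_sp]
  intro m hm i hi
  by_contra hc
  have h1 : i ≤ m.support.sup id := Finset.le_sup (f := id) (Finsupp.mem_support_iff.mpr hc)
  have h2 : m.support.sup id ≤ x.coeff.support.sup fun m => m.support.sup id :=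
    Finset.le_sup (f := fun m : E => m.support.sup id) (Finsupp.mem_support_iff.mpr hm)
  omega

lemma Bd_mono {N M : ℕ} (h : N ≤ M) : sp (Bd N) ≤ sp (Bd M) :=
  sp_mono fun _ hm i hi => hm i (h.trans hi)

lemma supp_of_Bd {N : ℕ} {m : E} (h : m ∈ Bd N) : m.support ⊆ range N := fun i hi => by
  rw [Finset.mem_range]; by_contra hc
  exact Finsupp.mem_support_iff.mp hi (h i (not_lt.mp hc))

lemma pd_of_Bd {N i : ℕ} {x : B} (hx : x ∈ sp (Bd N)) (hi : N ≤ i) : pd i x = 0 :=
  lin_mem (pd i).toLinearMap (W := ⊥) hx fun m hm => by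
    change pd i (mono m) ∈ (⊥ : Submodule ℂ B)
    rw [pd_mono, hm i hi]; simp

lemma lin_eq_of {S : Set E} (L L' : B →ₗ[ℂ] B) {x : B} (hx : x ∈ sp S)
    (h : ∀ m ∈ S, L (mono m) = L' (mono m)) : L x = L' x := by
  have := lin_mem (L - L') (W := ⊥) hx (fun m hm => by simp [h m hm])
  simpa [sub_eq_zero] using this

lemma der_eq_sum (a : ℕ → B) {N : ℕ} {x : B} (hx : x ∈ sp (Bd N)) :
    der a x = ∑ i ∈ range N, pd i x * a i := by
  have := lin_eq_of (der a).toLinearMap
    (∑ i ∈ range N, LinearMap.mulRight ℂ (a i) ∘ₗ (pd i).toLinearMap) hx (fun m hm => by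
      change der a (mono m) = _
      rw [der_mono_eq a m _ (supp_of_Bd hm), LinearMap.sum_apply]
      refine Finset.sum_congr rfl fun i _ => ?_
      change _ = pd i (mono m) * a i
      rw [pd_mono, smul_mul_assoc])
  rw [LinearMap.sum_apply] at this
  exact this

noncomputable def var : B →ₗ[ℂ] B :=
  lin fun m => ∑ i ∈ m.support, (-1 : ℂ) ^ i • dxi i (pd i (mono m))

lemma var_eq_sum {N : ℕ} {x : B} (hx : x ∈ sp (Bd N)) :
    var x = ∑ i ∈ range N, (-1 : ℂ) ^ i • dxi i (pd i x) := by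
  have := lin_eq_of var
    (∑ i ∈ range N, (-1 : ℂ) ^ i • (dxi i ∘ₗ (pd i).toLinearMap)) hx (fun m hm => by
      rw [var, lin_mono, LinearMap.sum_apply]
      refine Finset.sum_subset (supp_of_Bd hm) fun i _ hi => ?_
      rw [pd_mono, Finsupp.notMem_support_iff.mp hi]; simp)
  rw [LinearMap.sum_apply] at this
  exact this

lemma dxi_succ (j : ℕ) (x : B) : dxi (j + 1) x = dx (dxi j x) := by
  rw [← dxi_eq, ← dxi_eq, Function.iterate_succ_apply']

lemma dxi_succ' (j : ℕ) (x : B) : dxi (j + 1) x = dxi j (dx x) := by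
  rw [← dxi_eq, ← dxi_eq, Function.iterate_succ_apply]

@[simp] lemma dxi_zero (x : B) : dxi 0 x = x := rfl

/-- A class of elements closed under the basic operations -/
structure Cl (W : Submodule ℂ B) : Prop where
  mul : ∀ x ∈ W, ∀ y ∈ W, x * y ∈ W
  dx : ∀ x ∈ W, dx x ∈ W
  pd : ∀ i, ∀ x ∈ W, pd i x ∈ W

lemma Cl.top : Cl ⊤ := ⟨by simp, by simp, by simp⟩

lemma Cl.dxi {W : Submodule ℂ B} (h : Cl W) (j : ℕ) {x : B} (hx : x ∈ W) : dxi j x ∈ W := by
  induction j with
  | zero => exact hx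
  | succ j ih => rw [dxi_succ]; exact h.dx _ ih

lemma Cl.var {W : Submodule ℂ B} (h : Cl W) {x : B} (hx : x ∈ W) : var x ∈ W := by
  obtain ⟨N, hN⟩ := exists_Bd x
  rw [var_eq_sum hN]
  exact W.sum_mem fun i _ => W.smul_mem _ (h.dxi i (h.pd i x hx))

lemma Cl.ev {W : Submodule ℂ B} (h : Cl W) {P x : B} (hP : P ∈ W) (hx : x ∈ W) : ev P x ∈ W := by
  obtain ⟨N, hN⟩ := exists_Bd x
  rw [H979Z.DL.ev, der_eq_sum _ hN]
  exact W.sum_mem fun i _ => h.mul _ (h.pd i x hx) _ (by rw [dxi_eq]; exact h.dxi i hP)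

lemma ibp {W : Submodule ℂ B} (h : Cl W) (j : ℕ) : ∀ {a P : B}, a ∈ W → P ∈ W →
    a * dxi j P - ((-1 : ℂ) ^ j • dxi j a) * P ∈ W.map dx.toLinearMap := by
  induction j with
  | zero => intro a P _ _; simp
  | succ j ih =>
    intro a P ha hP
    have h1 := ih (h.dx _ ha) hP
    have h2 : dx (a * dxi j P) ∈ W.map dx.toLinearMap :=
      ⟨_, h.mul _ ha _ (h.dxi j hP), rfl⟩
    have := Submodule.sub_mem _ h2 h1
    convert this using 1
    rw [D_mul, dxi_succ j P, dxi_succ' j a, pow_succ]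
    simp only [mul_neg, mul_one, neg_smul]
    generalize (-1 : ℂ) ^ j • (H979Z.DL.dxi j) (H979Z.DL.dx a) = w
    ring

lemma ev_var {W : Submodule ℂ B} (h : Cl W) {x P : B} (hx : x ∈ W) (hP : P ∈ W) :
    ev P x - var x * P ∈ W.map dx.toLinearMap := by
  obtain ⟨N, hN⟩ := exists_Bd x
  rw [ev, der_eq_sum _ hN, var_eq_sum hN, Finset.sum_mul, ← Finset.sum_sub_distrib]
  refine Submodule.sum_mem _ fun i _ => ?_
  rw [dxi_eq]
  exact ibp h i (h.pd i x hx) hP

/-- total derivatives -/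
noncomputable def Im : Submodule ℂ B := (⊤ : Submodule ℂ B).map dx.toLinearMap

lemma dx_mem_Im (x : B) : dx x ∈ Im := ⟨x, trivial, rfl⟩

lemma mem_Im {y : B} : y ∈ Im ↔ ∃ x, dx x = y :=
  ⟨fun ⟨x, _, h⟩ => ⟨x, h⟩, fun ⟨x, h⟩ => ⟨x, trivial, h⟩⟩

lemma F2 (P x : B) : ev P x - var x * P ∈ Im := ev_var Cl.top trivial trivial

lemma Im_of_comm (D : Derivation ℂ B B) (h : ∀ x, D (dx x) = dx (D x)) {y : B} (hy : y ∈ Im) :
    D y ∈ Im := by
  obtain ⟨x, rfl⟩ := mem_Im.mp hy
  rw [h]; exact dx_mem_Im _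

lemma ev_Im (P : B) {y : B} (hy : y ∈ Im) : ev P y ∈ Im :=
  Im_of_comm _ (fun x => (dx_ev P x).symm) hy

lemma pd0_Im {y : B} (hy : y ∈ Im) : pd 0 y ∈ Im := Im_of_comm _ pd_zero_dx hy

lemma nondeg {a : B} (h : ∀ P, a * P ∈ Im) : a = 0 := by
  obtain ⟨M, hM⟩ := exists_Bd a
  obtain ⟨f, hf⟩ := mem_Im.mp (h (U (M + 1) * U (M + 1)))
  obtain ⟨N, hN⟩ := exists_Bd f
  have key : ∀ t i, N ≤ i + t → M + 1 ≤ i → pd i f = 0 := by
    intro t
    induction t with
    | zero => intro i hi _; exact pd_of_Bd hN hi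
    | succ t ih =>
      intro i hi hMi
      have h1 := pd_succ_dx i f
      rw [ih (i + 1) (by omega) (by omega), hf, D_mul, D_mul, pd_U, pd_of_Bd hM (by omega),
        if_neg (by omega)] at h1
      simpa using h1.symm
  have h0 := key N (M + 1) (by omega) le_rfl
  have h1 := pd_succ_dx M f
  rw [h0, map_zero, zero_add] at h1
  have h2 : pd (M + 1) (pd (M + 1) (dx f)) = 0 := by rw [h1, pd_pd, h0, map_zero]
  have h3 : pd (M + 1) a = 0 := pd_of_Bd hM (by omega)
  rw [hf] at h2
  simp only [D_mul, pd_U, h3, map_add, if_true, Derivation.map_one_eq_zero, map_zero] at h2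
  have h4 : (2 : ℂ) • a = 0 := by rw [two_smul]; linear_combination h2
  simpa using h4

lemma eq_of_pair {a b : B} (h : ∀ P, a * P - b * P ∈ Im) : a = b :=
  sub_eq_zero.mp (nondeg fun P => by rw [sub_mul]; exact h P)

lemma var_Im {y : B} (hy : y ∈ Im) : var y = 0 :=
  nondeg fun P => by
    have := Submodule.sub_mem _ (ev_Im P hy) (F2 P y)
    simpa using this

lemma var_congr {x y : B} (h : x - y ∈ Im) : var x = var y := by
  have := var_Im h
  rwa [map_sub, sub_eq_zero] at this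

lemma helm (P Q x : B) : ev P (var x) * Q - ev Q (var x) * P ∈ Im := by
  have h1 := ev_Im P (F2 Q x)
  have h2 := ev_Im Q (F2 P x)
  have h3 := F2 (ev P Q - ev Q P) x
  have h4 := ev_ev P Q x
  have := Submodule.add_mem _ (Submodule.sub_mem _ h2 h1) h3
  convert this using 1
  simp only [map_sub, D_mul]
  linear_combination h4

/-- Hamiltonian vector field -/
noncomputable def ham (y : B) : B := dx (var y)

noncomputable def br (x y : B) : B := ev (ham y) x

lemma br_eq (x y : B) : br x y - var x * ham y ∈ Im := F2 _ _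

lemma br_anti (x y : B) : br x y + br y x ∈ Im := by
  have := Submodule.add_mem _ (Submodule.add_mem _ (br_eq x y) (br_eq y x))
    (dx_mem_Im (var x * var y))
  convert this using 1
  rw [D_mul, ham, ham]; ring

lemma var_br (x y : B) : var (br x y) = ev (ham y) (var x) - ev (ham x) (var y) := by
  refine eq_of_pair fun P => ?_
  have h1 := F2 P (br x y)
  have h2 := ev_Im P (br_eq x y)
  have h3 := helm P (ham y) x
  have h4 := helm P (ham x) y
  have h5 := dx_mem_Im (var x * ev P (var y))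
  have := Submodule.add_mem _ (Submodule.sub_mem _ (Submodule.add_mem _
    (Submodule.sub_mem _ h2 h1) h3) h4) h5
  convert this using 1
  simp only [map_sub, D_mul, ham, dx_ev]
  ring

lemma br_jac (x y s : B) : br (br x y) s = br (br x s) y + br x (br y s) := by
  have h1 : ham (br y s) = ev (ham s) (ham y) - ev (ham y) (ham s) := by
    rw [ham, var_br, map_sub, dx_ev, dx_ev]; rfl
  unfold br at *
  rw [ev_ev, h1]

lemma br_Im_left {x : B} (hx : x ∈ Im) (s : B) : br x s ∈ Im := ev_Im _ hx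

lemma br_congr_right (x : B) {s t : B} (h : s - t ∈ Im) : br x s = br x t := by
  rw [br, br, ham, ham, var_congr h]

lemma br_add_left (x y s : B) : br (x + y) s = br x s + br y s := map_add _ _ _

lemma br_sub_left (x y s : B) : br (x - y) s = br x s - br y s := map_sub _ _ _

lemma br_smul_left (c : ℂ) (x s : B) : br (c • x) s = c • br x s := by simp [br]

lemma br_add_right (x s t : B) : br x (s + t) = br x s + br x t := by
  simp [br, ham, ev_add]

lemma br_smul_right (c : ℂ) (x s : B) : br x (c • s) = c • br x s := by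
  simp [br, ham, ev_smul]

lemma br_zero_right (x : B) : br x 0 = 0 := by simp [br, ham, ev_zero]

lemma br_sum_left {ι : Type} (t : Finset ι) (f : ι → B) (s : B) :
    br (∑ i ∈ t, f i) s = ∑ i ∈ t, br (f i) s := map_sum _ _ _

lemma br_sum_right {ι : Type} (t : Finset ι) (f : ι → B) (x : B) :
    br x (∑ i ∈ t, f i) = ∑ i ∈ t, br x (f i) := by
  classical
  induction t using Finset.induction_on with
  | empty => simp [br_zero_right]
  | insert i t hi ih => rw [Finset.sum_insert hi, Finset.sum_insert hi, br_add_right, ih]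

lemma pd0_var (x : B) : pd 0 (var x) = var (pd 0 x) := by
  refine eq_of_pair fun P => ?_
  have h1 := pd0_Im (F2 P x)
  have h2 := F2 P (pd 0 x)
  have h3 := F2 (pd 0 P) x
  have := Submodule.sub_mem _ (Submodule.add_mem _ h2 h3) h1
  convert this using 1
  simp only [map_sub, D_mul, pd_zero_ev]
  ring

lemma var_var (x : B) : var (var x) = var (pd 0 x) := by
  refine (var_congr ?_).symm
  have := F2 1 x
  rwa [ev_one, mul_one] at this

lemma pd0_br {s : B} (hs : pd 0 s = 0) (x : B) : pd 0 (br x s) = br (pd 0 x) s := by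
  rw [br, pd_zero_ev, ham, pd_zero_dx, pd0_var, hs, map_zero, map_zero, ev_zero]
  simp [br, ham]

lemma Cl.br {W : Submodule ℂ B} (h : Cl W) {x y : B} (hx : x ∈ W) (hy : y ∈ W) : br x y ∈ W :=
  h.ev (h.dx _ (h.var hy)) hx

end H979Z.DL
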